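import Pool.Agent.K3h89.SX.All

/-!
# Primes in the classes of every modulus (helper41): the linear form `a x + b` and narrow progressions
-/

set_option autoImplicit false

open Finset Filter

namespace Pool.Agent.Zk41.CL

open Pool.Agent.TH423.SH (PS)
open Pool.Agent.Y677.RSZ (rt V)
open Pool.Agent.K3h89.SZ (SysP CF)
open Pool.Agent.K3h89.SX

/-- the linear form -/
def Fa (a b : ℕ) (y : ℤ) : ℤ := (a : ℤ) * y + b

lemma not_both {a b p : ℕ} (hp : p.Prime) (hab : Nat.Coprime b a) (h1 : p ∣ a) (h2 : p ∣ b) : False := by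
  have h3 := Nat.dvd_gcd h2 h1
  rw [hab] at h3
  exact hp.one_lt.ne' (Nat.dvd_one.1 h3)

lemma root_ndvd {a b p : ℕ} (hp : p.Prime) (hab : Nat.Coprime b a) {y : ℤ} (h : (p : ℤ) ∣ Fa a b y) : ¬ p ∣ a := by
  intro h1
  apply not_both hp hab h1
  have h2 : (p : ℤ) ∣ (a : ℤ) * y := (Int.natCast_dvd_natCast.2 h1).mul_right _
  unfold Fa at h
  have h3 := (Int.dvd_add_right h2).1 h
  exact Int.natCast_dvd_natCast.1 h3

lemma dvd_diff {a b p : ℕ} (hp : p.Prime) (hab : Nat.Coprime b a) {y z : ℤ} (h : (p : ℤ) ∣ Fa a b y)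
    (h' : (p : ℤ) ∣ Fa a b z) : (p : ℤ) ∣ z - y := by
  have h1 := root_ndvd hp hab h
  have h2 := Int.dvd_sub h' h
  have h3 : Fa a b z - Fa a b y = (a : ℤ) * (z - y) := by
    unfold Fa
    ring
  rw [h3] at h2
  rcases (Nat.prime_iff_prime_int.1 hp).dvd_or_dvd h2 with h4 | h4
  · exact absurd (Int.natCast_dvd_natCast.1 h4) h1
  · exact h4

lemma rt_le_one {a b p : ℕ} (hp : p.Prime) (hab : Nat.Coprime b a) : rt (Fa a b) p ≤ 1 := by
  unfold rt
  rw [card_le_one]
  intro r hr s hs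
  rw [mem_filter, mem_range] at hr hs
  have h1 := dvd_diff hp hab hr.2 hs.2
  have h2 : (r : ℤ) ≡ s [ZMOD p] := (Int.modEq_iff_dvd).2 h1
  have h3 := (Int.natCast_modEq_iff).1 h2
  unfold Nat.ModEq at h3
  rwa [Nat.mod_eq_of_lt hr.1, Nat.mod_eq_of_lt hs.1] at h3

lemma one_le_rt {a b p : ℕ} (hp : p.Prime) (ha : ¬ p ∣ a) : 1 ≤ rt (Fa a b) p := by
  have : Fact p.Prime := ⟨hp⟩
  have ha' : (a : ZMod p) ≠ 0 := by
    intro h
    exact ha ((ZMod.natCast_eq_zero_iff a p).1 h)
  unfold rt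
  rw [Nat.one_le_iff_ne_zero, Ne, card_eq_zero, ← Ne, ← nonempty_iff_ne_empty]
  refine ⟨(-(b : ZMod p) * (a : ZMod p)⁻¹).val, ?_⟩
  rw [mem_filter, mem_range]
  refine ⟨ZMod.val_lt _, ?_⟩
  unfold Fa
  rw [← ZMod.intCast_zmod_eq_zero_iff_dvd]
  push_cast
  rw [ZMod.natCast_zmod_val]
  field_simp
  ring

lemma sysFa {a b : ℕ} (hab : Nat.Coprime b a) : SysP 1 (Fa a b) := by
  refine ⟨fun p _ n => ?_, fun p hp => ⟨rt_le_one hp hab, lt_of_le_of_lt (rt_le_one hp hab) hp.one_lt⟩⟩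
  have h : Fa a b (n + p) = Fa a b n + (a : ℤ) * p := by
    unfold Fa
    ring
  rw [h]
  exact Int.dvd_add_left (Dvd.intro_left _ rfl)

lemma CF_dvd {a b h p : ℕ} (hp : p.Prime) (hab : Nat.Coprime b a) (hc : CF (Fa a b) h p) : p ∣ h := by
  obtain ⟨y, h1, h2⟩ := hc
  have h3 := dvd_diff hp hab h1 h2
  rw [add_sub_cancel_left] at h3
  exact Int.natCast_dvd_natCast.1 h3

/-- the reciprocals of the numbers composed of given primes -/
private lemma fact_le' (S : Finset ℕ) (hS : ∀ p ∈ S, p.Prime) (T : Finset ℕ)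
    (hT : ∀ m ∈ T, m ≠ 0 ∧ ∀ p : ℕ, p.Prime → p ∣ m → p ∈ S) :
    ∑ m ∈ T, (m : ℝ)⁻¹ ≤ ∏ p ∈ S, (1 - (p : ℝ)⁻¹)⁻¹ := by
  classical
  let f : ℕ →* ℝ :=
    { toFun := fun n => (n : ℝ)⁻¹
      map_one' := by simp
      map_mul' := fun a b => by simp [mul_comm] }
  have hf : ∀ {p : ℕ}, p.Prime → ‖f p‖ < 1 := by
    intro p hp
    show ‖((p : ℝ))⁻¹‖ < 1
    rw [norm_inv, Real.norm_natCast]
    exact inv_lt_one_of_one_lt₀ (by exact_mod_cast hp.one_lt)
  have h := (EulerProduct.summable_and_hasSum_factoredNumbers_prod_filter_prime_geometric hf S).2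
  have hSf : S.filter Nat.Prime = S := filter_true_of_mem hS
  rw [hSf] at h
  have hmem : ∀ m ∈ T, m ∈ Nat.factoredNumbers S := by
    intro m hm
    rw [Nat.mem_factoredNumbers']
    exact (hT m hm).2
  have h2 : ∑ m ∈ T.attach, f m.1 ≤ ∏ p ∈ S, (1 - f p)⁻¹ := by
    have h3 := sum_le_hasSum (T.attach.map ⟨fun m => (⟨m.1, hmem m.1 m.2⟩ : Nat.factoredNumbers S),
      fun a b hab => by
        have := congrArg Subtype.val hab
        exact Subtype.ext this⟩) (fun m _ => by
          show (0 : ℝ) ≤ ((m.1 : ℝ))⁻¹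
          positivity) h
    rw [sum_map] at h3
    exact h3
  rw [sum_attach T (fun m => f m)] at h2
  exact h2

private lemma log_le_prod (H : ℕ) (hH : 2 ≤ H) :
    Real.log H ≤ ∏ p ∈ PS 1 H, (1 - (p : ℝ)⁻¹)⁻¹ := by
  have h1 : Real.log H ≤ ∑ n ∈ Icc 1 H, (n : ℝ)⁻¹ := by
    have h := log_add_one_le_harmonic H
    have h2 : Real.log H ≤ Real.log (H + 1) :=
      Real.log_le_log (by exact_mod_cast (by omega : 0 < H)) (by linarith)
    rw [harmonic_eq_sum_Icc] at h
    push_cast at h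
    exact h2.trans (by exact_mod_cast h)
  refine h1.trans (fact_le' _ ?_ _ ?_)
  · intro p hp
    exact (mem_filter.1 hp).2.1
  · intro m hm
    rw [mem_Icc] at hm
    refine ⟨by omega, fun p hp hpm => ?_⟩
    unfold PS
    rw [mem_filter, mem_Icc]
    exact ⟨⟨hp.one_le, (Nat.le_of_dvd (by omega) hpm).trans hm.2⟩, hp,
      fun h => hp.one_lt.ne' (Nat.dvd_one.1 h)⟩

lemma phi_prod (a : ℕ) (ha : 1 ≤ a) :
    (a : ℝ) / Nat.totient a = ∏ p ∈ a.primeFactors, ((p : ℝ) / (p - 1)) := by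
  have h3 := congrArg (fun z : ℚ => (z : ℝ)) (Nat.totient_eq_mul_prod_factors a)
  push_cast at h3
  have h4 : ∏ p ∈ a.primeFactors, ((p : ℝ) / (p - 1)) = (∏ p ∈ a.primeFactors, (1 - (p : ℝ)⁻¹))⁻¹ := by
    rw [← prod_inv_distrib]
    apply prod_congr rfl
    intro p hp
    have h5 : (2 : ℝ) ≤ p := by exact_mod_cast (Nat.mem_primeFactors.1 hp).1.two_le
    have h6 : (p : ℝ) ≠ 0 := by linarith
    have h7 : (p : ℝ) - 1 ≠ 0 := by linarith
    rw [show 1 - (p : ℝ)⁻¹ = (p - 1) / p by field_simp, inv_div]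
  rw [h4, h3]
  have h5 : (a : ℝ) ≠ 0 := by
    have : (0 : ℝ) < a := by exact_mod_cast ha
    exact this.ne'
  field_simp

/-- the sieve product -/
lemma V_le {a b : ℕ} (ha : 1 ≤ a) (H : ℕ) (hH : 2 ≤ H) :
    V (Fa a b) 1 H ≤ ((a : ℝ) / Nat.totient a) / Real.log H := by
  classical
  have hlog : 0 < Real.log H := Real.log_pos (by exact_mod_cast hH)
  have hPS : ∀ p ∈ PS 1 H, p.Prime := fun p hp => (mem_filter.1 hp).2.1
  have hfac : ∀ p ∈ PS 1 H, 1 - (rt (Fa a b) p : ℝ) / p ≤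
      (1 - (p : ℝ)⁻¹) * (if p ∣ a then (p : ℝ) / (p - 1) else 1) := by
    intro p hp
    have hpp := hPS p hp
    have hp2 : (2 : ℝ) ≤ p := by exact_mod_cast hpp.two_le
    have hp0 : (0 : ℝ) < p := by linarith
    split_ifs with h
    · have h1 : (1 - (p : ℝ)⁻¹) * ((p : ℝ) / (p - 1)) = 1 := by
        have : (p : ℝ) - 1 ≠ 0 := by linarith
        field_simp
      rw [h1]
      have : 0 ≤ (rt (Fa a b) p : ℝ) / p := by positivity
      linarith
    · have h1 : (1 : ℝ) ≤ rt (Fa a b) p := by exact_mod_cast one_le_rt hpp h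
      rw [mul_one, ← one_div]
      have := div_le_div_of_nonneg_right h1 hp0.le
      linarith
  have hnn : ∀ p ∈ PS 1 H, 0 ≤ 1 - (rt (Fa a b) p : ℝ) / p := by
    intro p hp
    have hp0 : (0 : ℝ) < p := by exact_mod_cast (hPS p hp).pos
    rw [sub_nonneg, div_le_one hp0]
    have : rt (Fa a b) p ≤ p := by
      unfold rt
      exact (card_filter_le _ _).trans (by simp)
    exact_mod_cast this
  have h1 : V (Fa a b) 1 H ≤ ∏ p ∈ PS 1 H, ((1 - (p : ℝ)⁻¹) * (if p ∣ a then (p : ℝ) / (p - 1) else 1)) :=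
    prod_le_prod hnn hfac
  rw [prod_mul_distrib] at h1
  have hq : 0 < ∏ p ∈ PS 1 H, (1 - (p : ℝ)⁻¹) := prod_pos fun p hp => by
    have : (1 : ℝ) < p := by exact_mod_cast (hPS p hp).one_lt
    have := inv_lt_one_of_one_lt₀ this
    linarith
  have h2 : ∏ p ∈ PS 1 H, (1 - (p : ℝ)⁻¹) ≤ 1 / Real.log H := by
    have h := log_le_prod H hH
    rw [prod_inv_distrib] at h
    rw [le_div_iff₀ hlog]
    calc (∏ p ∈ PS 1 H, (1 - (p : ℝ)⁻¹)) * Real.log H ≤
          (∏ p ∈ PS 1 H, (1 - (p : ℝ)⁻¹)) * (∏ p ∈ PS 1 H, (1 - (p : ℝ)⁻¹))⁻¹ :=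
          mul_le_mul_of_nonneg_left h hq.le
      _ = 1 := mul_inv_cancel₀ hq.ne'
  have h3 : ∏ p ∈ PS 1 H, (if p ∣ a then (p : ℝ) / (p - 1) else 1) ≤ (a : ℝ) / Nat.totient a := by
    rw [phi_prod a ha, ← prod_filter]
    have hsub : (PS 1 H).filter (fun p => p ∣ a) ⊆ a.primeFactors := by
      intro p hp
      rw [mem_filter] at hp
      rw [Nat.mem_primeFactors]
      exact ⟨hPS p hp.1, hp.2, by omega⟩
    have hge : ∀ p ∈ a.primeFactors, 1 ≤ (p : ℝ) / (p - 1) := by
      intro p hp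
      have h5 : (2 : ℝ) ≤ p := by exact_mod_cast (Nat.mem_primeFactors.1 hp).1.two_le
      rw [le_div_iff₀ (by linarith)]
      linarith
    rw [← prod_sdiff hsub]
    apply le_mul_of_one_le_left
    · apply prod_nonneg
      intro p hp
      linarith [hge p (hsub hp)]
    · apply Finset.one_le_prod
      intro p hp
      exact hge p (mem_sdiff.1 hp).1
  have h4 : 0 ≤ ∏ p ∈ PS 1 H, (if p ∣ a then (p : ℝ) / (p - 1) else 1) := by
    apply prod_nonneg
    intro p hp
    have h5 : (2 : ℝ) ≤ p := by exact_mod_cast (hPS p hp).two_le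
    split_ifs
    · apply div_nonneg <;> linarith
    · norm_num
  calc V (Fa a b) 1 H ≤ _ := h1
    _ ≤ 1 / Real.log H * ((a : ℝ) / Nat.totient a) := mul_le_mul h2 h3 h4 (by positivity)
    _ = _ := by ring

set_option maxHeartbeats 1600000 in
/-- dense sets of primes in the progression `b` modulo `a` -/
theorem ap_dense (C : ℕ) (hC : 1 ≤ C) (k : ℕ) (κ : ℝ) (hκ : 0 < κ) :
    ∃ B x₀ : ℕ, ∀ x : ℕ, x₀ ≤ x → ∀ a b : ℕ, 1 ≤ a → b < a → Nat.Coprime b a → x ≤ (x / a) ^ C →
    ∀ S : Finset ℕ, (∀ p ∈ S, p.Prime ∧ p ≤ x ∧ p % a = b) →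
    κ * (x / (Nat.totient a * Real.log x)) ≤ S.card →
    ∃ p d : ℕ, 1 ≤ d ∧ (d : ℝ) ≤ Real.log x ^ B ∧ ∀ i < k, p + i * (a * d) ∈ S := by
  classical
  have hC0 : (0 : ℝ) < C := by exact_mod_cast hC
  obtain ⟨εE, hεE, B, H₂, hE⟩ := engX_all (max k 2) (C + 1) (1 / 2) (κ / (2 * C)) (le_max_right _ _)
    (by norm_num) (by positivity)
  have hT := tendsto_natCast_atTop_atTop (R := ℝ)
  have hlT : Tendsto (fun H : ℕ => Real.log (H : ℝ)) atTop atTop := Real.tendsto_log_atTop.comp hT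
  have ev1 : ∀ᶠ H : ℕ in atTop, Real.exp (Real.exp (1 / εE)) ≤ Real.log H := hlT.eventually_ge_atTop _
  have ev2 : ∀ᶠ H : ℕ in atTop, 9 ≤ Real.log H := hlT.eventually_ge_atTop _
  have ev3 : ∀ᶠ H : ℕ in atTop, 3 * (H : ℝ) ^ (1 / 2 : ℝ) ≤ κ / 2 * (H / (C * Real.log H)) := by
    have h1 : ∀ᶠ x : ℝ in atTop, ‖Real.log x‖ ≤ (κ / (6 * C) : ℝ) * ‖x ^ (1 / 2 : ℝ)‖ :=
      (isLittleO_log_rpow_atTop (by norm_num : (0 : ℝ) < 1 / 2)).def (by positivity)
    filter_upwards [hT.eventually h1, eventually_ge_atTop 3] with H h2 h3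
    have hH1 : (3 : ℝ) ≤ H := by exact_mod_cast h3
    have hl : 0 < Real.log H := Real.log_pos (by linarith)
    rw [Real.norm_of_nonneg hl.le, Real.norm_of_nonneg (by positivity)] at h2
    have h4 : (H : ℝ) ^ (1 / 2 : ℝ) * (H : ℝ) ^ (1 / 2 : ℝ) = H := by
      rw [← Real.rpow_add (by linarith)]
      norm_num
    obtain ⟨w, hw⟩ : ∃ w, w = (H : ℝ) ^ (1 / 2 : ℝ) := ⟨_, rfl⟩
    rw [← hw] at h2 h4 ⊢
    have hw0 : 0 ≤ w := by rw [hw]; positivity
    rw [mul_div_assoc', le_div_iff₀ (by positivity)]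
    calc 3 * w * (C * Real.log H) ≤ 3 * w * (C * (κ / (6 * C) * w)) := by gcongr
      _ = κ / 2 * (w * w) := by
        field_simp
        ring
      _ = κ / 2 * H := by rw [h4]
  have ev4 : ∀ᶠ H : ℕ in atTop, Real.log H ^ B < Real.exp (√(Real.log H)) := by
    have h1 := Real.tendsto_pow_mul_exp_neg_atTop_nhds_zero (2 * B)
    have h2 : Tendsto (fun H : ℕ => √(Real.log (H : ℝ))) atTop atTop := Real.tendsto_sqrt_atTop.comp hlT
    have h3 := h2.eventually (h1.eventually (gt_mem_nhds (show (0 : ℝ) < 1 by norm_num)))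
    filter_upwards [h3, hlT.eventually_ge_atTop (0 : ℝ)] with H h4 h5
    rw [pow_mul, Real.sq_sqrt h5, Real.exp_neg, ← div_eq_mul_inv, div_lt_one (Real.exp_pos _)] at h4
    exact h4
  obtain ⟨H₃, hH₃⟩ := eventually_atTop.1 ((((ev1.and ev2).and ev3).and ev4).and (eventually_ge_atTop 10))
  refine ⟨B, (H₂ + H₃ + 3) ^ C + 1, fun x hx a b ha hba hab hxH S hS hSc => ?_⟩
  obtain ⟨H, hHd⟩ : ∃ H, H = x / a := ⟨_, rfl⟩
  rw [← hHd] at hxH
  have hHH : H₂ + H₃ + 3 ≤ H := by
    by_contra hcon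
    have h1 : H ^ C ≤ (H₂ + H₃ + 3) ^ C := Nat.pow_le_pow_left (by omega) C
    omega
  obtain ⟨⟨⟨⟨e1, e2⟩, e3⟩, e6⟩, e4⟩ := hH₃ H (by omega)
  have hHx : H ≤ x := by rw [hHd]; exact Nat.div_le_self _ _
  have hH0 : (0 : ℝ) < H := by exact_mod_cast (by omega : 0 < H)
  have hx0 : (0 : ℝ) < x := lt_of_lt_of_le hH0 (by exact_mod_cast hHx)
  have ha0 : (0 : ℝ) < a := by exact_mod_cast ha
  have hφ0 : (0 : ℝ) < Nat.totient a := by exact_mod_cast Nat.totient_pos.2 (by omega)
  have hφa : (Nat.totient a : ℝ) ≤ a := by exact_mod_cast Nat.totient_le a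
  have hlH : 0 < Real.log H := by linarith
  have hlHx : Real.log H ≤ Real.log x := Real.log_le_log hH0 (by exact_mod_cast hHx)
  have hlx : 0 < Real.log x := by linarith
  have hlxH : Real.log x ≤ C * Real.log H := by
    have h1 : (x : ℝ) ≤ (H : ℝ) ^ C := by exact_mod_cast hxH
    have := Real.log_le_log hx0 h1
    rwa [Real.log_pow] at this
  have hHa : (H : ℝ) * a ≤ x := by
    rw [hHd]
    exact_mod_cast Nat.div_mul_le_self x a
  have hHa' : (H : ℝ) ≤ x / a := by
    rw [le_div_iff₀ ha0]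
    exact hHa
  -- the set
  obtain ⟨w, hw⟩ : ∃ w, w = (H : ℝ) ^ (1 / 2 : ℝ) := ⟨_, rfl⟩
  rw [← hw] at e3
  have hw1 : 1 ≤ w := by
    rw [hw]
    exact Real.one_le_rpow (by exact_mod_cast (by omega : 1 ≤ H)) (by norm_num)
  obtain ⟨A, hA⟩ : ∃ A : Finset ℕ, A = (Icc 1 H).filter (fun y => a * y + b ∈ S ∧ w < ((a * y + b : ℕ) : ℝ)) := ⟨_, rfl⟩
  have hcover : S ⊆ (A.image (fun y => a * y + b) ∪ Icc 1 ⌊w⌋₊) ∪ {b} := by
    intro p hp
    obtain ⟨h1, h2, h3⟩ := hS p hp
    have h4 : a * (p / a) + b = p := by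
      rw [← h3]
      exact Nat.div_add_mod p a
    rw [mem_union, mem_union, mem_image, mem_singleton, mem_Icc]
    rcases Nat.eq_zero_or_pos (p / a) with h5 | h5
    · right
      rw [h5, mul_zero, zero_add] at h4
      exact h4.symm
    · left
      by_cases h6 : w < (p : ℝ)
      · left
        refine ⟨p / a, ?_, h4⟩
        rw [hA, mem_filter, mem_Icc, h4]
        refine ⟨⟨h5, ?_⟩, hp, h6⟩
        rw [hHd]
        exact Nat.div_le_div_right h2
      · right
        rw [not_lt] at h6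
        exact ⟨h1.one_lt.le, Nat.le_floor h6⟩
  have hcard : (S.card : ℝ) ≤ A.card + 2 * w := by
    have h1 := card_le_card hcover
    have h2 := h1.trans (card_union_le _ _)
    have h3 := card_union_le (A.image (fun y => a * y + b)) (Icc 1 ⌊w⌋₊)
    have h4 : (A.image (fun y => a * y + b)).card ≤ A.card := card_image_le
    rw [card_singleton] at h2
    rw [Nat.card_Icc] at h3
    have h5 : S.card ≤ A.card + ⌊w⌋₊ + 1 := by omega
    have h6 : (⌊w⌋₊ : ℝ) ≤ w := Nat.floor_le (by linarith)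
    have h7 : (S.card : ℝ) ≤ A.card + ⌊w⌋₊ + 1 := by exact_mod_cast h5
    linarith
  -- the density
  have hden : κ / (2 * C) * (H * V (Fa a b) 1 H) ≤ A.card := by
    have h1 := V_le (b := b) ha H (by omega)
    have h2 : (H : ℝ) * V (Fa a b) 1 H ≤ C * (x / (Nat.totient a * Real.log x)) := by
      calc (H : ℝ) * V (Fa a b) 1 H ≤ x / a * (((a : ℝ) / Nat.totient a) / Real.log H) := by
            apply mul_le_mul hHa' h1 (Pool.Agent.K3h89.SZ.V_posP (sysFa hab) 1 H).le (by positivity)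
        _ = x / Nat.totient a * (1 / Real.log H) := by
            field_simp
        _ ≤ x / Nat.totient a * (C / Real.log x) := by
            apply mul_le_mul_of_nonneg_left _ (by positivity)
            rw [div_le_div_iff₀ hlH hlx]
            linarith
        _ = C * (x / (Nat.totient a * Real.log x)) := by
            field_simp
    have h3 : κ / 2 * (H / (C * Real.log H)) ≤ κ / 2 * (x / (Nat.totient a * Real.log x)) := by
      apply mul_le_mul_of_nonneg_left _ (by positivity)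
      calc (H : ℝ) / (C * Real.log H) ≤ (x / Nat.totient a) / Real.log x := by
            apply div_le_div₀ (by positivity) _ hlx hlxH
            exact hHa'.trans (div_le_div_of_nonneg_left hx0.le hφ0 hφa)
        _ = x / (Nat.totient a * Real.log x) := by rw [div_div]
    have h4 : κ / (2 * C) * (H * V (Fa a b) 1 H) ≤ κ / 2 * (x / (Nat.totient a * Real.log x)) := by
      calc κ / (2 * C) * (H * V (Fa a b) 1 H) ≤ κ / (2 * C) * (C * (x / (Nat.totient a * Real.log x))) :=
            mul_le_mul_of_nonneg_left h2 (by positivity)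
        _ = _ := by field_simp
    linarith
  -- the small primes
  obtain ⟨p0, d, hd1, hd2, hAP⟩ := hE (Fa a b) 0 H A (by
      have h := sysFa hab
      exact ⟨h.per, fun p hp => ⟨(h.root p hp).1.trans (by omega), (h.root p hp).2⟩⟩) (by omega)
    (by
      intro y hy
      rw [mem_Ioc] at hy
      have hy1 : 1 ≤ y := by omega
      have hyH : y ≤ H := by omega
      have h1 : a * y + b < a * (y + 1) := by rw [mul_add]; omega
      have h2 : 0 < a * y + b := by
        have := Nat.mul_pos ha hy1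
        omega
      have h3 : Fa a b (y : ℤ) = ((a * y + b : ℕ) : ℤ) := by
        unfold Fa
        push_cast
        ring
      rw [h3]
      refine ⟨by exact_mod_cast h2.ne', ?_⟩
      rw [Nat.abs_cast]
      have h4 : a * y + b ≤ 2 * x := by
        have h5 : a * y ≤ a * H := Nat.mul_le_mul_left a hyH
        have h6 : a * H ≤ x := by
          rw [hHd]
          exact Nat.mul_div_le x a
        have h7 : a ≤ a * H := Nat.le_mul_of_pos_right a (by omega)
        omega
      have h5 : 2 * x ≤ H ^ (C + 1) := by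
        calc 2 * x ≤ H * H ^ C := Nat.mul_le_mul (by omega) hxH
          _ = H ^ (C + 1) := (pow_succ' H C).symm
      exact_mod_cast h4.trans h5)
    (by
      intro W N hW1 hW2 hN1 hN2 hWp
      have hNl : Real.log H ≤ N := by
        refine le_trans ?_ hN1
        exact le_self_pow₀ (by linarith) (by norm_num)
      have hN0 : (0 : ℝ) < N := by linarith
      have hl1 : Real.exp (1 / εE) ≤ Real.log N := by
        have h3 := Real.log_le_log (Real.exp_pos _) (e1.trans hNl)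
        rwa [Real.log_exp] at h3
      have hl2 : 1 < Real.log N := by
        refine lt_of_lt_of_le ?_ hl1
        rw [Real.one_lt_exp_iff]
        positivity
      have hl3 : 1 / εE ≤ Real.log (Real.log N) := by
        have h3 := Real.log_le_log (Real.exp_pos _) hl1
        rwa [Real.log_exp] at h3
      have hempty : (Icc 1 N).filter (fun j : ℕ =>
          εE < ∑ p ∈ (PS W H).filter (fun p : ℕ => CF (Fa a b) (W * j) p), (1 : ℝ) / p) = ∅ := by
        rw [filter_eq_empty_iff]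
        intro j hj
        rw [mem_Icc] at hj
        rw [not_lt]
        refine (big_primes _ j (by omega) (Real.log N) (Real.log N) hl2 ?_
          (Real.log_le_log (by exact_mod_cast hj.1) (by exact_mod_cast hj.2))).trans ?_
        · intro p hp
          rw [mem_filter] at hp
          have hp1 := hp.1
          unfold PS at hp1
          rw [mem_filter] at hp1
          refine ⟨hp1.2.1, ?_, ?_⟩
          · have h5 := CF_dvd hp1.2.1 hab (h := W * j) (by exact_mod_cast hp.2)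
            exact ((hp1.2.1.dvd_mul).1 h5).resolve_left hp1.2.2
          · by_contra h3
            push Not at h3
            exact hp1.2.2 (hWp p hp1.2.1 h3.le)
        · have h4 : 0 < Real.log N := by linarith
          have h5 : 0 < Real.log (Real.log N) := lt_of_lt_of_le (by positivity) hl3
          rw [div_le_iff₀ (by positivity)]
          rw [div_le_iff₀ hεE] at hl3
          nlinarith
      rw [hempty]
      simp
      positivity)
    (by
      intro h hh1 hh2 p hp hpe hcf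
      have h1 := CF_dvd hp hab hcf
      have h2 := Nat.le_of_dvd hh1 h1
      have h3 : (p : ℝ) ≤ h := by exact_mod_cast h2
      linarith)
    (by
      intro y hy
      rw [hA, mem_filter, mem_Icc] at hy
      rw [mem_Ioc]
      omega)
    (by
      intro y hy q hq hqH hqd
      rw [hA, mem_filter, mem_Icc] at hy
      have h3 : Fa a b (y : ℤ) = ((a * y + b : ℕ) : ℤ) := by
        unfold Fa
        push_cast
        ring
      rw [h3] at hqd
      have h4 := Int.natCast_dvd_natCast.1 hqd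
      have h5 := (Nat.prime_dvd_prime_iff_eq hq (hS _ hy.2.1).1).1 h4
      rw [h5, ← hw] at hqH
      linarith [hy.2.2])
    hden
  refine ⟨a * p0 + b, d, hd1, hd2.trans (pow_le_pow_left₀ hlH.le hlHx B), fun i hi => ?_⟩
  have h1 := hAP i (lt_of_lt_of_le hi (le_max_left _ _))
  rw [hA, mem_filter] at h1
  have h2 : a * p0 + b + i * (a * d) = a * (p0 + i * d) + b := by ring
  rw [h2]
  exact h1.2.1

end Pool.Agent.Zk41.CL
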