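import Pool.Agent.W23.UBc
import Pool.Agent.H442R2.KF.Bv
import Pool.Agent.Helper923.PNT

/-!
# Primes in the classes of every modulus (helper41): pairs of primes `p`, `p + h`
-/

set_option autoImplicit false

open Finset Nat ArithmeticFunction BoundingSieve

namespace Pool.Agent.Zk41.CL

open Pool.Agent.Helper923.PPS
open Pool.Agent.W23.UB (gg gg_apply GN SQ mem_SQ odd_of_coprime odd_prime_ge selberg)
open Pool.Agent.H442R2.KF (piN piAP Er)

lemma piN_le (N : ℕ) : (piN N : ℝ) ≤ N := by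
  unfold piN
  exact_mod_cast (card_filter_le _ _).trans (by simp)

/-- the trivial bound -/
theorem Er_triv (y d a : ℕ) (hd : 1 ≤ d) (hdy : d ≤ y) :
    |Er y d a| ≤ 3 * y * (1 / (Nat.totient d : ℝ)) := by
  have h1 : (piAP y d a : ℝ) ≤ (y : ℝ) / d + 1 := by
    refine le_trans ?_ (H343E.card_mod y d a hd)
    unfold piAP
    have : ((Icc 1 y).filter (fun p : ℕ => p.Prime ∧ p ≡ a [MOD d])).card ≤
        ((Icc 1 y).filter (fun m => m ≡ a [MOD d])).card := by
      apply card_le_card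
      intro p hp
      rw [mem_filter] at hp ⊢
      exact ⟨hp.1, hp.2.2⟩
    exact_mod_cast this
  have h2 := piN_le y
  have ht0 : (0:ℝ) < Nat.totient d := by exact_mod_cast Nat.totient_pos.2 (by omega)
  have htd : (Nat.totient d : ℝ) ≤ d := by exact_mod_cast Nat.totient_le d
  have hdy' : (d : ℝ) ≤ y := by exact_mod_cast hdy
  have hy0 : (0:ℝ) ≤ y := Nat.cast_nonneg _
  have h3 : (y : ℝ) / d ≤ y * (1 / (Nat.totient d : ℝ)) := by
    rw [div_eq_mul_one_div]
    exact mul_le_mul_of_nonneg_left (one_div_le_one_div_of_le ht0 htd) hy0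
  have h4 : (piN y : ℝ) / (Nat.totient d : ℝ) ≤ y * (1 / (Nat.totient d : ℝ)) := by
    rw [div_eq_mul_one_div]
    exact mul_le_mul_of_nonneg_right h2 (by positivity)
  have h5 : (0:ℝ) ≤ (piAP y d a : ℝ) := Nat.cast_nonneg _
  have h6 : 0 ≤ (piN y : ℝ) / (Nat.totient d : ℝ) := by positivity
  have h7 : 0 ≤ (y:ℝ) * (1 / (Nat.totient d : ℝ)) := by positivity
  have h8 : (1 : ℝ) ≤ y * (1 / (Nat.totient d : ℝ)) := by
    rw [mul_one_div, one_le_div ht0]
    linarith
  unfold Er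
  rw [abs_le]
  constructor <;> linarith

/-- Bombieri-Vinogradov with the weights `3 ^ ω(d)` -/
theorem bvw (κ : ℝ) (hκ : κ < 1 / 2) (U : ℕ) : ∃ C : ℝ, 0 < C ∧ ∀ x : ℕ, 3 ≤ x →
    ∀ b : ℕ → ℕ, (∀ d, 1 ≤ d → Nat.Coprime (b d) d) →
    ∑ d ∈ Icc 1 ⌊(x : ℝ) ^ κ⌋₊, (3 : ℝ) ^ d.primeFactors.card * |Er x d (b d)| ≤
      C * (x / Real.log x ^ U) := by
  obtain ⟨k, hk⟩ := Pool.Agent.H398R2.BV.sum_pow_omega_div_totient ((3 : ℝ) ^ 2) (by norm_num)
  obtain ⟨C1, hC1, hbv⟩ := Pool.Agent.H442R2.KF.bv κ hκ (2 ^ k + 2 * U)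
  refine ⟨3 * 2 ^ 2 ^ k + C1, by positivity, ?_⟩
  intro x hx b hb
  have hl := Pool.Agent.H442R2.KF.TaskBV.log_ge_one hx
  have hl0 : 0 < Real.log x := by linarith
  have hx0 : 0 < x := by omega
  have hxr : (0 : ℝ) < x := by exact_mod_cast hx0
  have hx1 : (1 : ℝ) ≤ x := by exact_mod_cast hx0
  set D := Icc 1 ⌊(x : ℝ) ^ κ⌋₊ with hD
  have hDx : ∀ d ∈ D, 1 ≤ d ∧ d ≤ x := by
    intro d hd
    rw [hD, mem_Icc] at hd
    refine ⟨hd.1, ?_⟩
    have h1 : (d : ℝ) ≤ x := by
      calc (d : ℝ) ≤ (⌊(x : ℝ) ^ κ⌋₊ : ℝ) := by exact_mod_cast hd.2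
        _ ≤ (x : ℝ) ^ κ := Nat.floor_le (by positivity)
        _ ≤ (x : ℝ) ^ (1 : ℝ) := Real.rpow_le_rpow_of_exponent_le hx1 (by linarith)
        _ = x := Real.rpow_one _
    exact_mod_cast h1
  set lam : ℝ := Real.log x ^ (2 ^ k + U) with hlam
  have hlam0 : 0 < lam := by positivity
  have h1 : ∀ d ∈ D, (3 : ℝ) ^ d.primeFactors.card * |Er x d (b d)| ≤
      3 * x / lam * (((3 : ℝ) ^ 2) ^ d.primeFactors.card / (Nat.totient d : ℝ)) + lam * |Er x d (b d)| := by
    intro d hd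
    obtain ⟨hd1, hd2⟩ := hDx d hd
    set w : ℝ := (3 : ℝ) ^ d.primeFactors.card with hw
    set e : ℝ := |Er x d (b d)| with he
    have he0 : 0 ≤ e := abs_nonneg _
    have ht := Er_triv x d (b d) hd1 hd2
    rw [← he] at ht
    have hw2 : ((3 : ℝ) ^ 2) ^ d.primeFactors.card = w ^ 2 := by rw [hw, ← pow_mul, ← pow_mul, mul_comm]
    rw [hw2]
    have h2 : w * e ≤ w ^ 2 * e / lam + lam * e := by
      have h3 : 0 ≤ (w / lam - 1) ^ 2 * (lam * e) := by positivity
      have h4 : (w / lam - 1) ^ 2 * (lam * e) = w ^ 2 * e / lam - 2 * (w * e) + lam * e := by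
        field_simp
        ring
      have h5 : 0 ≤ w * e := by positivity
      linarith
    have h3 : w ^ 2 * e / lam ≤ 3 * x / lam * (w ^ 2 / (Nat.totient d : ℝ)) := by
      calc w ^ 2 * e / lam ≤ w ^ 2 * (3 * x * (1 / (Nat.totient d : ℝ))) / lam := by
            apply div_le_div_of_nonneg_right _ hlam0.le
            exact mul_le_mul_of_nonneg_left ht (by positivity)
        _ = _ := by ring
    linarith
  refine (sum_le_sum h1).trans ?_
  rw [sum_add_distrib, ← mul_sum, ← mul_sum]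
  have h2 : ∑ d ∈ D, ((3 : ℝ) ^ 2) ^ d.primeFactors.card / (Nat.totient d : ℝ) ≤ (2 * Real.log x) ^ 2 ^ k := by
    calc ∑ d ∈ D, ((3 : ℝ) ^ 2) ^ d.primeFactors.card / (Nat.totient d : ℝ)
        ≤ ∑ d ∈ Icc 1 x, ((3 : ℝ) ^ 2) ^ d.primeFactors.card / (Nat.totient d : ℝ) :=
          sum_le_sum_of_subset_of_nonneg (fun d hd => mem_Icc.2 (hDx d hd)) fun _ _ _ => by positivity
      _ ≤ (1 + Real.log x) ^ 2 ^ k := hk x
      _ ≤ _ := pow_le_pow_left₀ (by linarith) (by linarith) _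
  have h3 := hbv x hx b hb
  have h4 : 3 * x / lam * ∑ d ∈ D, ((3 : ℝ) ^ 2) ^ d.primeFactors.card / (Nat.totient d : ℝ) ≤
      3 * 2 ^ 2 ^ k * (x / Real.log x ^ U) := by
    calc 3 * x / lam * ∑ d ∈ D, ((3 : ℝ) ^ 2) ^ d.primeFactors.card / (Nat.totient d : ℝ)
        ≤ 3 * x / lam * (2 * Real.log x) ^ 2 ^ k := mul_le_mul_of_nonneg_left h2 (by positivity)
      _ = _ := by
        rw [hlam, pow_add, mul_pow]
        field_simp
  have h5 : lam * ∑ d ∈ D, |Er x d (b d)| ≤ C1 * (x / Real.log x ^ U) := by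
    calc lam * ∑ d ∈ D, |Er x d (b d)| ≤ lam * (C1 * (x / Real.log x ^ (2 ^ k + 2 * U))) :=
          mul_le_mul_of_nonneg_left h3 hlam0.le
      _ = _ := by
        have : Real.log x ^ (2 ^ k + 2 * U) = Real.log x ^ (2 ^ k + U) * Real.log x ^ U := by
          rw [← pow_add]; congr 1; ring
        rw [hlam, this]
        field_simp
  linarith

/-- `1/φ` as an arithmetic function -/
noncomputable def phiInv : ArithmeticFunction ℝ where
  toFun n := ((Nat.totient n : ℕ) : ℝ)⁻¹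
  map_zero' := by simp

theorem phiInv_apply (n : ℕ) : phiInv n = ((Nat.totient n : ℕ) : ℝ)⁻¹ := rfl

theorem phiInv_mult : phiInv.IsMultiplicative := by
  refine ⟨by simp [phiInv_apply], ?_⟩
  intro m n h
  rw [phiInv_apply, phiInv_apply, phiInv_apply, Nat.totient_mul h]
  push_cast
  rw [mul_inv]

/-- the primes up to `N` -/
def PR (N : ℕ) : Finset ℕ := (Icc 1 N).filter (fun p : ℕ => p.Prime)

lemma mem_PR {N p : ℕ} : p ∈ PR N ↔ p.Prime ∧ p ≤ N := by
  unfold PR
  rw [mem_filter, mem_Icc]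
  constructor
  · rintro ⟨⟨-, h⟩, hp⟩
    exact ⟨hp, h⟩
  · rintro ⟨hp, h⟩
    exact ⟨⟨hp.one_lt.le, h⟩, hp⟩

lemma PR_card (N : ℕ) : (PR N).card = piN N := rfl

/-- the number of primes `p ≤ N` with `p + h` prime -/
def tw (h N : ℕ) : ℕ := ((PR N).filter (fun p => (p + h).Prime)).card

/-- the sieve problem for `p + h` -/
noncomputable def ts (h R N : ℕ) (hh : Even h) : BoundingSieve where
  support := (PR N).image (fun p => p + h)
  prodPrimes := PP h R
  prodPrimes_squarefree := PP_squarefree h R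
  weights := fun _ => 1
  weights_nonneg := fun _ => zero_le_one
  totalMass := piN N
  nu := phiInv
  nu_mult := phiInv_mult
  nu_pos_of_prime := by
    intro p hp _
    rw [phiInv_apply, Nat.totient_prime hp]
    have : 0 < p - 1 := by have := hp.two_le; omega
    have : (0 : ℝ) < ((p - 1 : ℕ) : ℝ) := by exact_mod_cast this
    positivity
  nu_lt_one_of_prime := by
    intro p hp hpd
    rw [phiInv_apply, Nat.totient_prime hp]
    have h1 := ((prime_dvd_PP hp).1 hpd).2
    have h2 : p ≠ 2 := by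
      rintro rfl
      exact h1 hh.two_dvd
    have h3 : 2 ≤ p - 1 := by have := hp.two_le; omega
    have h4 : (2 : ℝ) ≤ ((p - 1 : ℕ) : ℝ) := by exact_mod_cast h3
    exact inv_lt_one_of_one_lt₀ (by linarith)

theorem inj_add (h : ℕ) (s : Finset ℕ) :
    ∀ x ∈ s, ∀ y ∈ s, (fun p => p + h) x = (fun p => p + h) y → x = y := by
  intro x _ y _ hxy
  simp only at hxy
  omega

theorem tw_le_sifted {h R N : ℕ} (hh : Even h) :
    (tw h N : ℝ) ≤ (ts h R N hh).siftedSum + (R + 1) := by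
  classical
  have e : (ts h R N hh).siftedSum =
      (((PR N).filter (fun p => Nat.Coprime (PP h R) (p + h))).card : ℝ) := by
    unfold BoundingSieve.siftedSum
    have h0 : (ts h R N hh).support = (PR N).image (fun p => p + h) := rfl
    rw [h0, Finset.sum_image (inj_add h _), Finset.card_filter]
    push_cast
    apply Finset.sum_congr rfl
    intro p _
    rfl
  rw [e]
  have h1 : (PR N).filter (fun p => (p + h).Prime) ⊆
      (PR N).filter (fun p => Nat.Coprime (PP h R) (p + h)) ∪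
      (PR N).filter (fun p => p + h ≤ R) := by
    intro p hp
    rw [mem_filter] at hp
    rw [mem_union, mem_filter, mem_filter]
    by_cases h : p + h ≤ R
    · right; exact ⟨hp.1, h⟩
    · left
      refine ⟨hp.1, ?_⟩
      rw [Nat.coprime_comm, hp.2.coprime_iff_not_dvd, prime_dvd_PP hp.2]
      tauto
  have h2 : ((PR N).filter (fun p => p + h ≤ R)).card ≤ R + 1 := by
    have : ((PR N).filter (fun p => p + h ≤ R)).card ≤ (Finset.range (R + 1)).card := by
      apply Finset.card_le_card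
      intro p hp
      rw [mem_filter] at hp
      rw [Finset.mem_range]
      omega
    simpa using this
  have h3 := (Finset.card_le_card h1).trans (Finset.card_union_le _ _)
  unfold tw
  have h4 : ((PR N).filter (fun p => (p + h).Prime)).card ≤
      ((PR N).filter (fun p => Nat.Coprime (PP h R) (p + h))).card + (R + 1) := by omega
  exact_mod_cast h4

theorem GN_le_selS {h R N : ℕ} (hh : Even h) :
    GN h R ≤ selS (ts h R N hh) (R : ℝ) := by
  unfold selS GN
  have h1 : ∀ l ∈ SQ h R, gg l = (ts h R N hh).selbergTerms l := by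
    intro l hl
    rw [mem_SQ] at hl
    have hodd : Odd l := odd_of_coprime hh hl.2.2
    rw [BoundingSieve.selbergTerms_apply]
    change gg l = ((Nat.totient l : ℕ) : ℝ)⁻¹ * ∏ p ∈ l.primeFactors,
      (1 - ((Nat.totient p : ℕ) : ℝ)⁻¹)⁻¹
    have h2 : (Nat.totient l : ℝ) = ∏ p ∈ l.primeFactors, ((p : ℝ) - 1) := by
      have h3 := congrArg (fun z : ℚ => (z : ℝ)) (Nat.totient_eq_mul_prod_factors l)
      push_cast at h3
      rw [h3]
      have h4 : (l : ℝ) = ∏ p ∈ l.primeFactors, (p : ℝ) := by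
        have := Nat.prod_primeFactors_of_squarefree hl.2.1
        rw [← Nat.cast_prod, this]
      nth_rewrite 1 [h4]
      rw [← Finset.prod_mul_distrib]
      apply Finset.prod_congr rfl
      intro p hp
      have : (p : ℝ) ≠ 0 := by
        have := (Nat.mem_primeFactors.1 hp).1.pos
        positivity
      field_simp
    rw [h2, ← Finset.prod_inv_distrib, ← Finset.prod_mul_distrib, gg_apply (by omega)]
    apply Finset.prod_congr rfl
    intro p hp
    have h5 := odd_prime_ge hodd hp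
    have h6 : (3 : ℝ) ≤ p := by exact_mod_cast h5
    rw [Nat.totient_prime (Nat.mem_primeFactors.1 hp).1, Nat.cast_sub (by omega), Nat.cast_one]
    have h7 : (p : ℝ) - 1 ≠ 0 := by linarith
    have h8 : (p : ℝ) - 2 ≠ 0 := by linarith
    have h9 : 1 - ((p : ℝ) - 1)⁻¹ = ((p : ℝ) - 2) / (p - 1) := by
      field_simp
      ring
    rw [h9]
    field_simp
  rw [Finset.sum_congr rfl h1]
  apply Finset.sum_le_sum_of_subset_of_nonneg
  · intro l hl
    rw [mem_SQ] at hl
    rw [Finset.mem_filter, Nat.mem_divisors]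
    exact ⟨⟨dvd_PP_of_squarefree hl.2.1 hl.1.2 hl.2.2, (PP_squarefree h R).ne_zero⟩,
      by exact_mod_cast hl.1.2⟩
  · intro l hl _
    rw [Finset.mem_filter, Nat.mem_divisors] at hl
    exact (selbergTerms_pos hl.1.1).le

/-- the residues -/
def rs (h d : ℕ) : ℕ := if Nat.Coprime h d then h * (d - 1) else 1

theorem rs_coprime (h d : ℕ) (hd : 1 ≤ d) : Nat.Coprime (rs h d) d := by
  unfold rs
  split_ifs with hc
  · apply Nat.Coprime.mul_left hc
    rcases Nat.eq_or_lt_of_le hd with h1 | h1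
    · rw [← h1]
      simp
    · have h2 := Nat.coprime_self_sub_right (n := d) (m := 1) (by omega)
      have h3 : Nat.Coprime (d - 1) d := by
        rw [Nat.coprime_comm, h2]
        simp
      exact h3
  · simp

theorem dvd_iff_rs {h d p : ℕ} (hd : 1 ≤ d) (hc : Nat.Coprime h d) :
    d ∣ p + h ↔ p ≡ rs h d [MOD d] := by
  unfold rs
  rw [if_pos hc]
  have h1 : h * (d - 1) + h = h * d := by
    obtain ⟨e, rfl⟩ : ∃ e, d = e + 1 := ⟨d - 1, by omega⟩
    simp
    ring
  constructor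
  · intro h2
    apply Nat.ModEq.add_right_cancel' h
    rw [h1]
    exact ((Nat.modEq_zero_iff_dvd.2 h2)).trans (Nat.modEq_zero_iff_dvd.2 (Dvd.intro_left h rfl)).symm
  · intro h2
    have h3 := h2.add_right h
    rw [h1] at h3
    exact Nat.modEq_zero_iff_dvd.1 (h3.trans (Nat.modEq_zero_iff_dvd.2 (Dvd.intro_left h rfl)))

theorem ts_rem {h R N d : ℕ} (hh : Even h) (hd : 1 ≤ d) (hc : Nat.Coprime h d) :
    (ts h R N hh).rem d = Er N d (rs h d) := by
  classical
  have e1 : (ts h R N hh).multSum d =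
      (((PR N).filter (fun p => d ∣ p + h)).card : ℝ) := by
    unfold BoundingSieve.multSum
    have h0 : (ts h R N hh).support = (PR N).image (fun p => p + h) := rfl
    rw [h0, Finset.sum_image (inj_add h _), Finset.card_filter]
    push_cast
    apply Finset.sum_congr rfl
    intro p _
    rfl
  have e2 : (PR N).filter (fun p => d ∣ p + h) =
      (Icc 1 N).filter (fun p : ℕ => p.Prime ∧ p ≡ rs h d [MOD d]) := by
    ext p
    unfold PR
    rw [mem_filter, mem_filter, mem_filter, dvd_iff_rs hd hc]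
    tauto
  unfold BoundingSieve.rem
  rw [e1, e2]
  change _ - ((Nat.totient d : ℕ) : ℝ)⁻¹ * (piN N : ℝ) = _
  unfold Er piAP
  rw [div_eq_mul_inv]
  ring

/-- the sieve bound for one `h` -/
theorem one_h {h R N : ℕ} (hh : Even h) (hR : 1 ≤ R) {δ T : ℝ} (hRN : (R : ℝ) ^ 2 ≤ (N : ℝ) ^ δ)
    (hT : ∑ d ∈ Icc 1 ⌊(N : ℝ) ^ δ⌋₊, (3 : ℝ) ^ d.primeFactors.card * |Er N d (rs h d)| ≤ T) :
    (tw h N : ℝ) ≤ (piN N : ℝ) / selS (ts h R N hh) (R : ℝ) + T + (R + 1) := by
  have hR1 : (1 : ℝ) ≤ R := by exact_mod_cast hR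
  have hs := selberg (ts h R N hh) (R : ℝ) hR1
  have h2 := tw_le_sifted (R := R) (N := N) hh
  have h3 : ∑ d ∈ (divisors (ts h R N hh).prodPrimes).filter (fun d : ℕ => (d : ℝ) ≤ (R : ℝ) ^ 2),
        (3 : ℝ) ^ d.primeFactors.card * |(ts h R N hh).rem d| ≤ T := by
    refine le_trans ?_ hT
    have h4 : ∀ d ∈ (divisors (ts h R N hh).prodPrimes).filter (fun d : ℕ => (d : ℝ) ≤ (R : ℝ) ^ 2),
        1 ≤ d ∧ Nat.Coprime h d ∧ (d : ℝ) ≤ (R : ℝ) ^ 2 := by
      intro d hd
      rw [mem_filter, Nat.mem_divisors] at hd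
      have hdP : d ∣ PP h R := hd.1.1
      exact ⟨Nat.pos_of_ne_zero (ne_zero_of_dvd_ne_zero (PP_squarefree h R).ne_zero hdP),
        (coprime_of_dvd_PP hdP).symm, hd.2⟩
    rw [Finset.sum_congr rfl (fun d hd => by rw [ts_rem hh (h4 d hd).1 (h4 d hd).2.1])]
    apply Finset.sum_le_sum_of_subset_of_nonneg
    · intro d hd
      rw [mem_Icc]
      exact ⟨(h4 d hd).1, Nat.le_floor ((h4 d hd).2.2.trans hRN)⟩
    · intro d _ _
      positivity
  have h4 : (ts h R N hh).totalMass = piN N := rfl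
  rw [h4] at hs
  linarith

end Pool.Agent.Zk41.CL
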