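import Pool.Agent.Zk41.CL.A

/-!
# Primes in the classes of every modulus (helper41): the upper bound for pairs of primes
-/

set_option autoImplicit false

open Finset Filter Topology

namespace Pool.Agent.Zk41.CL

open Pool.Agent.Helper923.PPS
open Pool.Agent.W23.UB (gg gg_apply GN SQ mem_SQ odd_of_coprime odd_prime_ge selberg C2 C2_pos GN_lower)
open Pool.Agent.H442R2.KF (piN piAP Er)

/-- `∏_{p ∣ h, p > 2} (p - 1) / (p - 2)` -/
noncomputable def P (h : ℕ) : ℝ := ∏ p ∈ h.primeFactors.filter (fun p => 2 < p), (1 + ((p : ℝ) - 2)⁻¹)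

lemma one_le_P (h : ℕ) : 1 ≤ P h := by
  unfold P
  apply Finset.one_le_prod
  intro p hp
  rw [mem_filter] at hp
  have h1 : (2 : ℝ) < p := by exact_mod_cast hp.2
  have : 0 ≤ ((p : ℝ) - 2)⁻¹ := by
    apply inv_nonneg.2
    linarith
  linarith

lemma piN_eq (N : ℕ) : piN N = Nat.primeCounting N := by
  unfold piN
  rw [Nat.primeCounting, Nat.primeCounting', Nat.count_eq_card_filter_range]
  congr 1
  ext p
  rw [mem_filter, mem_filter, mem_Icc, mem_range]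
  constructor
  · rintro ⟨⟨h1, h2⟩, h3⟩
    exact ⟨by omega, h3⟩
  · rintro ⟨h1, h3⟩
    exact ⟨⟨h3.one_lt.le, by omega⟩, h3⟩

/-- the prime number theorem -/
theorem pnt (t : ℝ) (ht : 0 < t) : ∃ N₀ : ℕ, ∀ N : ℕ, N₀ ≤ N →
    (1 - t) * (N / Real.log N) ≤ piN N ∧ (piN N : ℝ) ≤ (1 + t) * (N / Real.log N) := by
  have h := Pool.Agent.Helper923.PNT.pi_tendsto
  have h1 := h.eventually (lt_mem_nhds (show 1 - t < 1 by linarith))
  have h2 := h.eventually (gt_mem_nhds (show 1 < 1 + t by linarith))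
  obtain ⟨X, hX⟩ := eventually_atTop.1 ((h1.and h2).and (eventually_gt_atTop (3 : ℝ)))
  refine ⟨⌈X⌉₊, fun N hN => ?_⟩
  obtain ⟨⟨g1, g2⟩, g3⟩ := hX (N : ℝ) ((Nat.le_ceil X).trans (by exact_mod_cast hN))
  rw [Nat.floor_natCast, ← piN_eq] at g1 g2
  have hN0 : (0 : ℝ) < N := by linarith
  have hl : 0 < Real.log N := Real.log_pos (by linarith)
  rw [lt_div_iff₀ hN0] at g1
  rw [div_lt_iff₀ hN0] at g2
  constructor
  · rw [mul_div_assoc', div_le_iff₀ hl]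
    exact g1.le
  · rw [mul_div_assoc', le_div_iff₀ hl]
    exact g2.le

lemma selP {A B G p x : ℝ} (hp : 0 ≤ p) (hA : 0 < A) (hB : 0 < B) (h1 : A ≤ B * G) (hx : p ≤ x) :
    p / G ≤ x * B / A := by
  have hG : 0 < G := by
    by_contra hcon
    rw [not_lt] at hcon
    have : B * G ≤ 0 := mul_nonpos_of_nonneg_of_nonpos hB.le hcon
    linarith
  rw [div_le_div_iff₀ hG hA]
  calc p * A ≤ p * (B * G) := mul_le_mul_of_nonneg_left h1 hp
    _ ≤ x * (B * G) := mul_le_mul_of_nonneg_right hx (by positivity)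
    _ = x * B * G := by ring

/-- the constant -/
lemma cst (ε : ℝ) (hε : 0 < ε) : ∃ t : ℝ, 0 < t ∧ t < 1 / 16 ∧ t < C2⁻¹ / 2 ∧
    (1 + t) * (2 / ((C2⁻¹ - t) * (1 / 4 - 2 * t))) ≤ (4 + ε) * (2 * C2) := by
  have hC := C2_pos
  have hC' : 0 < C2⁻¹ := inv_pos.2 hC
  have hc : ContinuousAt (fun t : ℝ => (1 + t) * (2 / ((C2⁻¹ - t) * (1 / 4 - 2 * t)))) 0 := by
    apply ContinuousAt.mul
    · fun_prop
    · apply ContinuousAt.div
      · fun_prop
      · fun_prop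
      · simp only [sub_zero, mul_zero]
        positivity
  have h0 : (fun t : ℝ => (1 + t) * (2 / ((C2⁻¹ - t) * (1 / 4 - 2 * t)))) 0 < (4 + ε) * (2 * C2) := by
    simp only [add_zero, sub_zero, mul_zero, one_mul]
    have e : 2 / (C2⁻¹ * (1 / 4)) = 4 * (2 * C2) := by
      field_simp
    rw [e]
    nlinarith
  have h1 := hc.eventually (gt_mem_nhds h0)
  have h2 : ∀ᶠ t : ℝ in 𝓝 0, t < 1 / 16 := gt_mem_nhds (by norm_num)
  have h3 : ∀ᶠ t : ℝ in 𝓝 0, t < C2⁻¹ / 2 := gt_mem_nhds (by positivity)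
  have h4 := ((h1.and (h2.and h3)).filter_mono (nhdsWithin_le_nhds (s := Set.Ioi (0 : ℝ)))).and
    self_mem_nhdsWithin
  obtain ⟨t, ⟨g1, g2, g3⟩, g4⟩ := h4.exists
  exact ⟨t, g4, g2, g3, g1.le⟩

/-- **pairs of primes**: at most four times the expected number, for all even `h` -/
theorem pair_upper (ε : ℝ) (hε : 0 < ε) : ∃ N₀ : ℕ, ∀ N : ℕ, N₀ ≤ N → ∀ h : ℕ, h ≠ 0 → Even h →
    (tw h N : ℝ) ≤ (4 + ε) * (2 * C2 * P h) * (N / Real.log N ^ 2) := by
  have hC2 := C2_pos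
  obtain ⟨t, ht0, ht1, ht2, ht3⟩ := cst (ε / 2) (by positivity)
  obtain ⟨W, hW1, hW⟩ := GN_lower t ht0
  obtain ⟨C, hC, hbv⟩ := bvw (1 / 2 - 2 * t) (by linarith) 3
  obtain ⟨N₁, hN₁⟩ := pnt t ht0
  have hT := tendsto_natCast_atTop_atTop (R := ℝ)
  have hlT : Tendsto (fun N : ℕ => Real.log (N : ℝ)) atTop atTop := Real.tendsto_log_atTop.comp hT
  have ev1 : ∀ᶠ N : ℕ in atTop, (2 * (W : ℝ)) ≤ (N : ℝ) ^ (1 / 4 - t) :=
    ((tendsto_rpow_atTop (by linarith)).comp hT).eventually_ge_atTop _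
  have ev2 : ∀ᶠ N : ℕ in atTop, Real.log (2 * (W : ℝ)) / t ≤ Real.log N := hlT.eventually_ge_atTop _
  have ev3 : ∀ᶠ N : ℕ in atTop, 2 * C / (ε * C2) ≤ Real.log N := hlT.eventually_ge_atTop _
  have ev4 : ∀ᶠ N : ℕ in atTop, 4 / (ε * C2) * Real.log N ^ 2 ≤ (N : ℝ) ^ (1 / 2 : ℝ) := by
    have h1 : ∀ᶠ x : ℝ in atTop, ‖Real.log x ^ (2 : ℝ)‖ ≤ (ε * C2 / 4 : ℝ) * ‖x ^ (1 / 2 : ℝ)‖ :=
      (isLittleO_log_rpow_rpow_atTop 2 (by norm_num : (0 : ℝ) < 1 / 2)).def (by positivity)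
    filter_upwards [hT.eventually h1, eventually_ge_atTop 3] with N h2 h3
    have hN1 : (1 : ℝ) ≤ N := by exact_mod_cast (by omega : 1 ≤ N)
    have hl : 0 ≤ Real.log N := Real.log_nonneg hN1
    rw [Real.norm_of_nonneg (by positivity), Real.norm_of_nonneg (by positivity)] at h2
    have e : Real.log N ^ (2 : ℝ) = Real.log N ^ 2 := by
      rw [← Real.rpow_natCast]
      norm_num
    rw [e] at h2
    calc 4 / (ε * C2) * Real.log N ^ 2 ≤ 4 / (ε * C2) * (ε * C2 / 4 * (N : ℝ) ^ (1 / 2 : ℝ)) :=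
          mul_le_mul_of_nonneg_left h2 (by positivity)
      _ = (N : ℝ) ^ (1 / 2 : ℝ) := by
        field_simp
  obtain ⟨N₂, hN₂⟩ := eventually_atTop.1 ((((ev1.and ev2).and (ev3.and ev4)).and
    (eventually_ge_atTop (max N₁ 3))))
  refine ⟨N₂, fun N hN h hh0 hh => ?_⟩
  obtain ⟨⟨⟨e1, e2⟩, e3, e4⟩, e5⟩ := hN₂ N hN
  have hN3 : 3 ≤ N := (le_max_right _ _).trans e5
  have hNr : (3 : ℝ) ≤ N := by exact_mod_cast hN3
  have hN0 : (0 : ℝ) < N := by linarith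
  have hl : 1 ≤ Real.log N := Pool.Agent.H442R2.KF.TaskBV.log_ge_one hN3
  have hl0 : 0 < Real.log N := by linarith
  have hp := (hN₁ N ((le_max_left _ _).trans e5)).2
  have hWr : (1 : ℝ) ≤ W := by exact_mod_cast hW1
  -- the parameter
  obtain ⟨R, hR⟩ : ∃ R : ℕ, R = ⌊(N : ℝ) ^ (1 / 4 - t)⌋₊ := ⟨_, rfl⟩
  have hR1 : (R : ℝ) ≤ (N : ℝ) ^ (1 / 4 - t) := by
    rw [hR]
    exact Nat.floor_le (by positivity)
  have hR2 : (N : ℝ) ^ (1 / 4 - t) < R + 1 := by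
    rw [hR]
    exact Nat.lt_floor_add_one _
  have hR3 : (N : ℝ) ^ (1 / 4 - t) / 2 ≤ R := by linarith
  have hWR : W ≤ R := by
    have : (W : ℝ) ≤ R := by linarith
    exact_mod_cast this
  have hR4 : 1 ≤ R := hW1.trans hWR
  have hlog : (1 / 4 - 2 * t) * Real.log N ≤ Real.log ((R : ℝ) / W) := by
    have h1 : Real.log ((N : ℝ) ^ (1 / 4 - t) / (2 * W)) ≤ Real.log ((R : ℝ) / W) := by
      apply Real.log_le_log (by positivity)
      rw [div_le_div_iff₀ (by positivity) (by positivity)]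
      nlinarith
    rw [Real.log_div (by positivity) (by positivity), Real.log_rpow hN0] at h1
    rw [div_le_iff₀ ht0] at e2
    linarith
  -- the main term
  have hP1 := one_le_P h
  have hGN : (1 / 2) * (C2⁻¹ - t) * ((1 / 4 - 2 * t) * Real.log N) ≤ P h * selS (ts h R N hh) (R : ℝ) := by
    have h1 := hW h R hh hh0 hWR
    have h2 : (1 / 2) * (C2⁻¹ - t) * ((1 / 4 - 2 * t) * Real.log N) ≤
        (1 / 2) * (C2⁻¹ - t) * Real.log ((R : ℝ) / W) := by
      apply mul_le_mul_of_nonneg_left hlog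
      have : 0 ≤ C2⁻¹ - t := by
        have : 0 < C2⁻¹ := inv_pos.2 hC2
        linarith
      positivity
    refine h2.trans (h1.trans ?_)
    apply mul_le_mul_of_nonneg_left (GN_le_selS hh) (by
      have : 0 ≤ P h := by linarith
      exact this)
  have hC' : 0 < C2⁻¹ := inv_pos.2 hC2
  have hA : 0 < (1 / 2) * (C2⁻¹ - t) * ((1 / 4 - 2 * t) * Real.log N) := by
    have h1 : 0 < C2⁻¹ - t := by linarith
    have h2 : 0 < 1 / 4 - 2 * t := by linarith
    positivity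
  have hmain : (piN N : ℝ) / selS (ts h R N hh) (R : ℝ) ≤
      (4 + ε / 2) * (2 * C2 * P h) * (N / Real.log N ^ 2) := by
    refine (selP (Nat.cast_nonneg _) hA (by linarith : 0 < P h) hGN hp).trans ?_
    have e : (1 + t) * (N / Real.log N) * P h / ((1 / 2) * (C2⁻¹ - t) * ((1 / 4 - 2 * t) * Real.log N)) =
        (1 + t) * (2 / ((C2⁻¹ - t) * (1 / 4 - 2 * t))) * (P h * (N / Real.log N ^ 2)) := by
      have h1 : C2⁻¹ - t ≠ 0 := by
        have : 0 < C2⁻¹ - t := by linarith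
        exact this.ne'
      have h2 : 1 / 4 - 2 * t ≠ 0 := by
        have : 0 < 1 / 4 - 2 * t := by linarith
        exact this.ne'
      generalize C2⁻¹ - t = u at *
      generalize 1 / 4 - 2 * t = v at *
      field_simp
    rw [e]
    have h3 : 0 ≤ P h * (N / Real.log N ^ 2) := by
      have : 0 ≤ P h := by linarith
      positivity
    calc _ ≤ (4 + ε / 2) * (2 * C2) * (P h * (N / Real.log N ^ 2)) := mul_le_mul_of_nonneg_right ht3 h3
      _ = _ := by ring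
  -- the remainder
  have hRN : (R : ℝ) ^ 2 ≤ (N : ℝ) ^ (1 / 2 - 2 * t) := by
    calc (R : ℝ) ^ 2 ≤ ((N : ℝ) ^ (1 / 4 - t)) ^ 2 := pow_le_pow_left₀ (Nat.cast_nonneg _) hR1 2
      _ = (N : ℝ) ^ (1 / 2 - 2 * t) := by
        rw [← Real.rpow_natCast, ← Real.rpow_mul hN0.le]
        congr 1
        push_cast
        ring
  have hfin := one_h hh hR4 hRN (hbv N hN3 (rs h) (rs_coprime h))
  have hrem1 : C * (N / Real.log N ^ 3) ≤ ε / 2 * C2 * (N / Real.log N ^ 2) := by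
    have e : C * (N / Real.log N ^ 3) = C / Real.log N * (N / Real.log N ^ 2) := by
      field_simp
    rw [e]
    apply mul_le_mul_of_nonneg_right _ (by positivity)
    rw [div_le_iff₀ hl0]
    rw [div_le_iff₀ (by positivity)] at e3
    nlinarith
  have hrem2 : (R : ℝ) + 1 ≤ ε / 2 * C2 * (N / Real.log N ^ 2) := by
    have h1 : (R : ℝ) + 1 ≤ 2 * (N : ℝ) ^ (1 / 2 : ℝ) := by
      have h2 : (N : ℝ) ^ (1 / 4 - t) ≤ (N : ℝ) ^ (1 / 2 : ℝ) :=
        Real.rpow_le_rpow_of_exponent_le (by linarith) (by linarith)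
      have h3 : (1 : ℝ) ≤ (N : ℝ) ^ (1 / 2 : ℝ) := Real.one_le_rpow (by linarith) (by norm_num)
      linarith
    have h2 : (N : ℝ) ^ (1 / 2 : ℝ) * (N : ℝ) ^ (1 / 2 : ℝ) = N := by
      rw [← Real.rpow_add hN0]
      norm_num
    obtain ⟨w, hw⟩ : ∃ w, w = (N : ℝ) ^ (1 / 2 : ℝ) := ⟨_, rfl⟩
    rw [← hw] at h1 h2 e4
    have hw0 : 0 ≤ w := by rw [hw]; positivity
    have h3 : 2 * w ≤ ε / 2 * C2 * (N / Real.log N ^ 2) := by
      rw [mul_div_assoc', le_div_iff₀ (by positivity)]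
      have h4 : 4 * Real.log N ^ 2 ≤ ε * C2 * w := by
        have h5 : 4 / (ε * C2) * Real.log N ^ 2 = 4 * Real.log N ^ 2 / (ε * C2) := by ring
        rw [h5, div_le_iff₀ (by positivity)] at e4
        linarith
      have h5 := mul_le_mul_of_nonneg_left h4 hw0
      have h6 : w * (ε * C2 * w) = ε * C2 * N := by rw [← h2]; ring
      rw [h6] at h5
      linarith
    linarith
  have hx0 : 0 ≤ (N : ℝ) / Real.log N ^ 2 := by positivity
  have hPx : (N : ℝ) / Real.log N ^ 2 ≤ P h * (N / Real.log N ^ 2) := le_mul_of_one_le_left hx0 hP1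
  have hεC : 0 ≤ ε * C2 := by positivity
  calc (tw h N : ℝ) ≤ (4 + ε / 2) * (2 * C2 * P h) * (N / Real.log N ^ 2) +
        (ε / 2 * C2 * (N / Real.log N ^ 2) + ε / 2 * C2 * (N / Real.log N ^ 2)) := by linarith
    _ = (4 + ε / 2) * (2 * C2 * P h) * (N / Real.log N ^ 2) + ε * C2 * (N / Real.log N ^ 2) := by ring
    _ ≤ (4 + ε / 2) * (2 * C2 * P h) * (N / Real.log N ^ 2) + ε * C2 * (P h * (N / Real.log N ^ 2)) := by
        have := mul_le_mul_of_nonneg_left hPx hεC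
        linarith
    _ = (4 + ε) * (2 * C2 * P h) * (N / Real.log N ^ 2) := by ring

end Pool.Agent.Zk41.CL
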