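import Pool.Agent.Zk41.CL.B

/-!
# Primes in the classes of every modulus (helper41): the average of the singular series, without an error term
-/

set_option autoImplicit false

open Finset Filter Topology

namespace Pool.Agent.Zk41.CL

open Pool.Agent.W23.UB (C2 C2_pos C2_hasProd c2f one_add_pos)

/-- the multiples of `m` -/
lemma sum_mult (m : ℕ) (hm : 1 ≤ m) (K : ℝ) :
    ∑ k ∈ (Icc 1 ⌊K⌋₊).filter (fun k => m ∣ k), (K - k) ≤ K ^ 2 / (2 * m) := by
  have hm0 : (0 : ℝ) < m := by exact_mod_cast hm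
  have e : (Icc 1 ⌊K⌋₊).filter (fun k => m ∣ k) = (Icc 1 (⌊K⌋₊ / m)).image (fun j => m * j) := by
    ext k
    rw [mem_filter, mem_Icc, mem_image]
    constructor
    · rintro ⟨⟨h1, h2⟩, j, rfl⟩
      refine ⟨j, ?_, rfl⟩
      rw [mem_Icc]
      constructor
      · rcases Nat.eq_zero_or_pos j with rfl | h
        · simp at h1
        · exact h
      · rw [Nat.le_div_iff_mul_le hm]
        rw [mul_comm]
        exact h2
    · rintro ⟨j, hj, rfl⟩
      rw [mem_Icc, Nat.le_div_iff_mul_le hm] at hj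
      refine ⟨⟨Nat.mul_pos hm hj.1, ?_⟩, Dvd.intro j rfl⟩
      rw [mul_comm]
      exact hj.2
  rw [e, sum_image (by
    intro x _ y _ hxy
    exact Nat.eq_of_mul_eq_mul_left hm hxy)]
  obtain ⟨J, hJ⟩ : ∃ J, J = ⌊K⌋₊ / m := ⟨_, rfl⟩
  rw [← hJ]
  have h1 : ∀ J : ℕ, ∑ j ∈ Icc 1 J, (K - ((m * j : ℕ) : ℝ)) = J * K - m * (J * (J + 1) / 2) := by
    intro J
    induction J with
    | zero => simp
    | succ n ih =>
      rw [Finset.sum_Icc_succ_top (by omega), ih]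
      push_cast
      ring
  rw [h1, le_div_iff₀ (by positivity)]
  have h2 : (0 : ℝ) ≤ J := Nat.cast_nonneg _
  nlinarith [sq_nonneg (K - m * J), mul_nonneg (mul_nonneg hm0.le hm0.le) h2]

/-- the odd primes up to `n` which do not divide `a` -/
def QS (a n : ℕ) : Finset ℕ := (Icc 1 n).filter (fun p => p.Prime ∧ 2 < p ∧ ¬ p ∣ a)

lemma mem_QS {a n p : ℕ} : p ∈ QS a n ↔ p ≤ n ∧ p.Prime ∧ 2 < p ∧ ¬ p ∣ a := by
  unfold QS
  rw [mem_filter, mem_Icc]
  constructor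
  · rintro ⟨⟨-, h⟩, h2⟩
    exact ⟨h, h2⟩
  · rintro ⟨h, h2⟩
    exact ⟨⟨h2.1.one_lt.le, h⟩, h2⟩

lemma P_mul {a k n : ℕ} (ha : 1 ≤ a) (hk : 1 ≤ k) (hkn : k ≤ n) :
    P (k * a) = P a * ∏ p ∈ (QS a n).filter (fun p => p ∣ k), (1 + ((p : ℝ) - 2)⁻¹) := by
  unfold P
  have e : (k * a).primeFactors.filter (fun p => 2 < p) =
      a.primeFactors.filter (fun p => 2 < p) ∪ (QS a n).filter (fun p => p ∣ k) := by
    ext p
    rw [Nat.primeFactors_mul (by omega) (by omega)]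
    simp only [mem_filter, mem_union, mem_QS, Nat.mem_primeFactors]
    constructor
    · rintro ⟨⟨h1, h2, h3⟩ | ⟨h1, h2, h3⟩, h4⟩
      · by_cases h5 : p ∣ a
        · left; exact ⟨⟨h1, h5, by omega⟩, h4⟩
        · right; exact ⟨⟨(Nat.le_of_dvd (by omega) h2).trans hkn, h1, h4, h5⟩, h2⟩
      · left; exact ⟨⟨h1, h2, h3⟩, h4⟩
    · rintro (⟨⟨h1, h2, h3⟩, h4⟩ | ⟨⟨h1, h2, h3, h4⟩, h5⟩)
      · exact ⟨Or.inr ⟨h1, h2, h3⟩, h4⟩
      · exact ⟨Or.inl ⟨h2, h5, by omega⟩, h3⟩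
  rw [e, prod_union]
  rw [Finset.disjoint_left]
  intro p h1 h2
  rw [mem_filter, Nat.mem_primeFactors] at h1
  rw [mem_filter, mem_QS] at h2
  exact h2.1.2.2.2 h1.1.2.1

/-- partial products of the twin prime constant -/
lemma C2_le (S : Finset ℕ) (hS : ∀ p ∈ S, p.Prime ∧ 2 < p) :
    C2 ≤ ∏ p ∈ S, (1 - 1 / ((p : ℝ) - 1) ^ 2) := by
  classical
  have hle : ∀ p : Nat.Primes, 1 + c2f p ≤ 1 := by
    intro p
    have : c2f p ≤ 0 := by
      unfold c2f
      split_ifs with h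
      · exact le_rfl
      · rw [neg_nonpos]
        positivity
    linarith
  obtain ⟨f, hf⟩ : ∃ f : {x // x ∈ S} → Nat.Primes, ∀ p, (f p : ℕ) = p.1 :=
    ⟨fun p => ⟨p.1, (hS p.1 p.2).1⟩, fun p => rfl⟩
  obtain ⟨T, hT⟩ : ∃ T : Finset Nat.Primes, T = S.attach.image f := ⟨_, rfl⟩
  have e : ∏ p ∈ S, (1 - 1 / ((p : ℝ) - 1) ^ 2) = ∏ p ∈ T, (1 + c2f p) := by
    rw [hT, prod_image (by
      intro x _ y _ hxy
      have := congrArg (fun z : Nat.Primes => (z : ℕ)) hxy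
      simp only [hf] at this
      exact Subtype.ext this)]
    rw [← prod_attach S]
    apply prod_congr rfl
    intro p _
    unfold c2f
    rw [hf, if_neg (by have := (hS p.1 p.2).2; omega)]
    ring
  rw [e]
  refine le_of_tendsto C2_hasProd ?_
  filter_upwards [eventually_ge_atTop T] with U hU
  rw [← prod_sdiff hU]
  have h1 : ∏ p ∈ U \ T, (1 + c2f p) ≤ 1 :=
    prod_le_one (fun p _ => (one_add_pos p).le) (fun p _ => hle p)
  exact mul_le_of_le_one_left (prod_nonneg fun p _ => (one_add_pos p).le) h1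

lemma tot_prod (a : ℕ) (ha : 1 ≤ a) :
    (a : ℝ) / Nat.totient a = ∏ p ∈ a.primeFactors, ((p : ℝ) / (p - 1)) := by
  have h3 := congrArg (fun z : ℚ => (z : ℝ)) (Nat.totient_eq_mul_prod_factors a)
  push_cast at h3
  have h4 : ∏ p ∈ a.primeFactors, ((p : ℝ) / (p - 1)) = (∏ p ∈ a.primeFactors, (1 - (p : ℝ)⁻¹))⁻¹ := by
    rw [← prod_inv_distrib]
    apply prod_congr rfl
    intro p hp
    have h5 : (2 : ℝ) ≤ p := by exact_mod_cast (Nat.mem_primeFactors.1 hp).1.two_le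
    have h6 : (p : ℝ) ≠ 0 := by linarith
    have h7 : (p : ℝ) - 1 ≠ 0 := by linarith
    rw [show 1 - (p : ℝ)⁻¹ = (p - 1) / p by field_simp, inv_div]
  rw [h4, h3]
  have h5 : (a : ℝ) ≠ 0 := by
    have : (0 : ℝ) < a := by exact_mod_cast ha
    exact this.ne'
  field_simp

/-- the Euler product -/
lemma euler (a n : ℕ) (ha : 1 ≤ a) :
    2 * C2 * P a * ∏ p ∈ QS a n, (1 + ((p : ℝ) - 2)⁻¹ / p) ≤
      (if 2 ∣ a then 1 else 2) * ((a : ℝ) / Nat.totient a) := by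
  classical
  obtain ⟨A, hA⟩ : ∃ A, A = a.primeFactors.filter (fun p => 2 < p) := ⟨_, rfl⟩
  have hAp : ∀ p ∈ A, p.Prime ∧ 2 < p := by
    intro p hp
    rw [hA, mem_filter, Nat.mem_primeFactors] at hp
    exact ⟨hp.1.1, hp.2⟩
  have hQp : ∀ p ∈ QS a n, p.Prime ∧ 2 < p := by
    intro p hp
    rw [mem_QS] at hp
    exact ⟨hp.2.1, hp.2.2.1⟩
  have hdisj : Disjoint A (QS a n) := by
    rw [Finset.disjoint_left]
    intro p h1 h2
    rw [hA, mem_filter, Nat.mem_primeFactors] at h1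
    rw [mem_QS] at h2
    exact h2.2.2.2 h1.1.2.1
  have hC := C2_le (A ∪ QS a n) (by
    intro p hp
    rw [mem_union] at hp
    exact hp.elim (hAp p) (hQp p))
  rw [prod_union hdisj] at hC
  have hr : ∀ p : ℕ, 2 < p → (3 : ℝ) ≤ p := fun p hp => by exact_mod_cast hp
  have e1 : (∏ p ∈ A, (1 - 1 / ((p : ℝ) - 1) ^ 2)) * P a = ∏ p ∈ A, ((p : ℝ) / (p - 1)) := by
    unfold P
    rw [← hA, ← prod_mul_distrib]
    apply prod_congr rfl
    intro p hp
    have h1 := hr p (hAp p hp).2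
    have h2 : (p : ℝ) - 1 ≠ 0 := by linarith
    have h3 : (p : ℝ) - 2 ≠ 0 := by linarith
    field_simp
    ring
  have e2 : (∏ p ∈ QS a n, (1 - 1 / ((p : ℝ) - 1) ^ 2)) * ∏ p ∈ QS a n, (1 + ((p : ℝ) - 2)⁻¹ / p) = 1 := by
    rw [← prod_mul_distrib]
    apply prod_eq_one
    intro p hp
    have h1 := hr p (hQp p hp).2
    have h2 : (p : ℝ) - 1 ≠ 0 := by linarith
    have h3 : (p : ℝ) - 2 ≠ 0 := by linarith
    have h4 : (p : ℝ) ≠ 0 := by linarith
    field_simp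
    ring
  have hP0 : 0 ≤ P a := by linarith [one_le_P a]
  have hQ0 : 0 ≤ ∏ p ∈ QS a n, (1 + ((p : ℝ) - 2)⁻¹ / p) := by
    apply prod_nonneg
    intro p hp
    have h1 := hr p (hQp p hp).2
    have : 0 ≤ ((p : ℝ) - 2)⁻¹ := inv_nonneg.2 (by linarith)
    positivity
  have h1 : C2 * P a * ∏ p ∈ QS a n, (1 + ((p : ℝ) - 2)⁻¹ / p) ≤ ∏ p ∈ A, ((p : ℝ) / (p - 1)) := by
    calc C2 * P a * ∏ p ∈ QS a n, (1 + ((p : ℝ) - 2)⁻¹ / p)
        ≤ ((∏ p ∈ A, (1 - 1 / ((p : ℝ) - 1) ^ 2)) * ∏ p ∈ QS a n, (1 - 1 / ((p : ℝ) - 1) ^ 2)) * P a *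
          ∏ p ∈ QS a n, (1 + ((p : ℝ) - 2)⁻¹ / p) := by
          apply mul_le_mul_of_nonneg_right _ hQ0
          exact mul_le_mul_of_nonneg_right hC hP0
      _ = ((∏ p ∈ A, (1 - 1 / ((p : ℝ) - 1) ^ 2)) * P a) *
          ((∏ p ∈ QS a n, (1 - 1 / ((p : ℝ) - 1) ^ 2)) * ∏ p ∈ QS a n, (1 + ((p : ℝ) - 2)⁻¹ / p)) := by ring
      _ = _ := by rw [e1, e2, mul_one]
  have h2 : 2 * ∏ p ∈ A, ((p : ℝ) / (p - 1)) = (if 2 ∣ a then 1 else 2) * ((a : ℝ) / Nat.totient a) := by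
    rw [tot_prod a ha]
    by_cases h : 2 ∣ a
    · rw [if_pos h, one_mul]
      have h3 : a.primeFactors = insert 2 A := by
        ext p
        rw [mem_insert, hA, mem_filter, Nat.mem_primeFactors]
        constructor
        · intro h4
          rcases h4.1.two_le.eq_or_lt with h5 | h5
          · left; exact h5.symm
          · right; exact ⟨h4, h5⟩
        · rintro (h4 | h4)
          · rw [h4]
            exact ⟨Nat.prime_two, h, by omega⟩
          · exact h4.1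
      rw [h3, prod_insert (by
        intro h4
        have := (hAp 2 h4).2
        omega)]
      norm_num
    · rw [if_neg h]
      have h3 : a.primeFactors = A := by
        rw [hA]
        symm
        apply filter_true_of_mem
        intro p hp
        rw [Nat.mem_primeFactors] at hp
        rcases hp.1.two_le.eq_or_lt with h5 | h5
        · exfalso
          rw [← h5] at hp
          exact h hp.2.1
        · exact h5
      rw [h3]
  calc _ = 2 * (C2 * P a * ∏ p ∈ QS a n, (1 + ((p : ℝ) - 2)⁻¹ / p)) := by ring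
    _ ≤ 2 * ∏ p ∈ A, ((p : ℝ) / (p - 1)) := by linarith
    _ = _ := h2

/-- **the average of the singular series over the multiples of `a`** -/
theorem av (a : ℕ) (ha : 1 ≤ a) (K : ℝ) (hK : 0 ≤ K) :
    ∑ k ∈ (Icc 1 ⌊K⌋₊).filter (fun k => 2 ∣ k * a), 2 * C2 * P (k * a) * (K - k) ≤
      K ^ 2 / 2 * ((a : ℝ) / Nat.totient a) := by
  classical
  have hC := C2_pos
  obtain ⟨n, hn⟩ : ∃ n, n = ⌊K⌋₊ := ⟨_, rfl⟩
  rw [← hn]
  obtain ⟨e, he⟩ : ∃ e : ℕ, e = if 2 ∣ a then 1 else 2 := ⟨_, rfl⟩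
  have he1 : 1 ≤ e := by
    rw [he]
    split_ifs <;> omega
  have hdiv : ∀ k : ℕ, 2 ∣ k * a ↔ e ∣ k := by
    intro k
    rw [he, Nat.prime_two.dvd_mul]
    split_ifs with h
    · simp [h]
    · simp [h]
  obtain ⟨g, hg⟩ : ∃ g : Finset ℕ → ℝ, g = fun T : Finset ℕ => ∏ p ∈ T, ((p : ℝ) - 2)⁻¹ := ⟨_, rfl⟩
  have hprimes : ∀ T ∈ (QS a n).powerset, ∀ p ∈ T, p.Prime ∧ 2 < p := by
    intro T hT p hp
    have := (mem_QS.1 ((mem_powerset.1 hT) hp)).2
    exact ⟨this.1, this.2.1⟩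
  have hg0 : ∀ T ∈ (QS a n).powerset, 0 ≤ g T := by
    intro T hT
    rw [hg]
    apply prod_nonneg
    intro p hp
    have h1 : (2 : ℝ) < p := by exact_mod_cast (hprimes T hT p hp).2
    exact inv_nonneg.2 (by linarith)
  -- expansion
  have h1 : ∀ k ∈ (Icc 1 n).filter (fun k => 2 ∣ k * a), 2 * C2 * P (k * a) * (K - k) =
      2 * C2 * P a * ∑ T ∈ (QS a n).powerset, if (∏ p ∈ T, p) ∣ k then g T * (K - k) else 0 := by
    intro k hk
    rw [mem_filter, mem_Icc] at hk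
    rw [P_mul ha hk.1.1 hk.1.2, prod_one_add]
    have h2 : ((QS a n).filter (fun p => p ∣ k)).powerset =
        (QS a n).powerset.filter (fun T => (∏ p ∈ T, p) ∣ k) := by
      ext T
      rw [mem_powerset, mem_filter, mem_powerset]
      constructor
      · intro hT
        refine ⟨hT.trans (filter_subset _ _), ?_⟩
        apply Finset.prod_primes_dvd
        · intro p hp
          have := (mem_QS.1 (mem_filter.1 (hT hp)).1).2.1
          exact this.prime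
        · intro p hp
          exact (mem_filter.1 (hT hp)).2
      · rintro ⟨h3, h4⟩ p hp
        rw [mem_filter]
        exact ⟨h3 hp, (dvd_prod_of_mem (fun p => p) hp).trans h4⟩
    rw [h2, sum_filter]
    have h3 : (∑ T ∈ (QS a n).powerset, if (∏ p ∈ T, p) ∣ k then ∏ p ∈ T, ((p : ℝ) - 2)⁻¹ else 0) * (K - k) =
        ∑ T ∈ (QS a n).powerset, if (∏ p ∈ T, p) ∣ k then g T * (K - k) else 0 := by
      rw [sum_mul]
      apply sum_congr rfl
      intro T _
      rw [hg]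
      split_ifs
      · rfl
      · simp
    rw [← h3]
    ring
  rw [sum_congr rfl h1, ← mul_sum, sum_comm]
  -- the inner sums
  have h2 : ∀ T ∈ (QS a n).powerset, ∑ k ∈ (Icc 1 n).filter (fun k => 2 ∣ k * a),
      (if (∏ p ∈ T, p) ∣ k then g T * (K - k) else 0) ≤ K ^ 2 / (2 * e) * ∏ p ∈ T, (((p : ℝ) - 2)⁻¹ / p) := by
    intro T hT
    have hTp := hprimes T hT
    have hcop : Nat.Coprime e (∏ p ∈ T, p) := by
      apply Nat.Coprime.prod_right
      intro p hp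
      rw [he]
      split_ifs
      · exact Nat.coprime_one_left p
      · rw [Nat.coprime_primes Nat.prime_two (hTp p hp).1]
        have := (hTp p hp).2
        omega
    have hm : 1 ≤ ∏ p ∈ T, p := prod_pos fun p hp => (hTp p hp).1.pos
    rw [← sum_filter, filter_filter]
    have h3 : (Icc 1 n).filter (fun k => 2 ∣ k * a ∧ (∏ p ∈ T, p) ∣ k) =
        (Icc 1 n).filter (fun k => e * (∏ p ∈ T, p) ∣ k) := by
      apply filter_congr
      intro k _
      rw [hdiv k]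
      constructor
      · rintro ⟨h4, h5⟩
        exact Nat.Coprime.mul_dvd_of_dvd_of_dvd hcop h4 h5
      · intro h4
        exact ⟨(Dvd.intro _ rfl).trans h4, (Dvd.intro_left _ rfl).trans h4⟩
    rw [h3, ← mul_sum, hn]
    have h4 := sum_mult (e * ∏ p ∈ T, p) (Nat.mul_pos he1 hm) K
    refine (mul_le_mul_of_nonneg_left h4 (hg0 T hT)).trans (le_of_eq ?_)
    rw [prod_div_distrib, hg]
    push_cast
    have h5 : (0 : ℝ) < ∏ p ∈ T, (p : ℝ) := prod_pos fun p hp => by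
      exact_mod_cast (hTp p hp).1.pos
    have h6 : (0 : ℝ) < e := by exact_mod_cast he1
    field_simp
  have hP0 : 0 ≤ P a := by linarith [one_le_P a]
  have h3 := sum_le_sum h2
  rw [← mul_sum, ← prod_one_add] at h3
  have h4 := euler a n ha
  have h5 : (e : ℝ) = if 2 ∣ a then 1 else 2 := by
    rw [he]
    split_ifs <;> simp
  rw [← h5] at h4
  have h6 : (0 : ℝ) < e := by exact_mod_cast he1
  calc _ ≤ 2 * C2 * P a * (K ^ 2 / (2 * e) * ∏ p ∈ QS a n, (1 + ((p : ℝ) - 2)⁻¹ / p)) :=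
        mul_le_mul_of_nonneg_left h3 (by positivity)
    _ = K ^ 2 / (2 * e) * (2 * C2 * P a * ∏ p ∈ QS a n, (1 + ((p : ℝ) - 2)⁻¹ / p)) := by ring
    _ ≤ K ^ 2 / (2 * e) * (e * ((a : ℝ) / Nat.totient a)) := mul_le_mul_of_nonneg_left h4 (by positivity)
    _ = K ^ 2 / 2 * ((a : ℝ) / Nat.totient a) := by
      field_simp

end Pool.Agent.Zk41.CL
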