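import Pool.Agent.Zk41.CL.C

/-!
# Primes in the classes of every modulus (helper41): the second moment
-/

set_option autoImplicit false

open Finset Filter Topology

namespace Pool.Agent.Zk41.CL

open Pool.Agent.W23.UB (C2 C2_pos)
open Pool.Agent.H442R2.KF (piN)

/-- the elements of `S` in the class `b` modulo `a` -/
def cls (S : Finset ℕ) (a b : ℕ) : Finset ℕ := S.filter (fun p => p % a = b)

lemma cls_card_sum (S : Finset ℕ) (a : ℕ) (ha : 1 ≤ a) : ∑ b ∈ range a, (cls S a b).card = S.card := by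
  symm
  apply Finset.card_eq_sum_card_fiberwise
  intro p _
  simp only [coe_range, Set.mem_Iio]
  exact Nat.mod_lt _ ha

lemma sum_sq (S : Finset ℕ) (a : ℕ) (ha : 1 ≤ a) :
    ∑ b ∈ range a, (cls S a b).card ^ 2 = ((S ×ˢ S).filter (fun z => z.1 % a = z.2 % a)).card := by
  rw [Finset.card_eq_sum_card_fiberwise (f := fun z : ℕ × ℕ => z.1 % a) (t := range a) (by
    intro z _
    simp only [coe_range, Set.mem_Iio]
    exact Nat.mod_lt _ ha)]
  apply sum_congr rfl
  intro b _
  rw [sq, ← card_product]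
  congr 1
  ext z
  unfold cls
  simp only [mem_filter, mem_product]
  constructor
  · rintro ⟨⟨h1, h2⟩, h3, h4⟩
    exact ⟨⟨⟨h1, h3⟩, h2.trans h4.symm⟩, h2⟩
  · rintro ⟨⟨⟨h1, h3⟩, h4⟩, h2⟩
    exact ⟨⟨h1, h2⟩, h3, h4.symm.trans h2⟩

/-- the pairs `p < q` of `S` in one class -/
def pc (S : Finset ℕ) (a : ℕ) : ℕ := ((S ×ˢ S).filter (fun z => z.1 < z.2 ∧ z.1 % a = z.2 % a)).card

lemma pairs_le (S : Finset ℕ) (a : ℕ) :
    ((S ×ˢ S).filter (fun z => z.1 % a = z.2 % a)).card ≤ S.card + 2 * pc S a := by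
  have h1 : (S ×ˢ S).filter (fun z => z.1 % a = z.2 % a) ⊆
      (S.image (fun p => (p, p)) ∪ (S ×ˢ S).filter (fun z => z.1 < z.2 ∧ z.1 % a = z.2 % a)) ∪
        ((S ×ˢ S).filter (fun z => z.1 < z.2 ∧ z.1 % a = z.2 % a)).image Prod.swap := by
    rintro ⟨p, q⟩ hz
    simp only [mem_filter, mem_product] at hz
    obtain ⟨⟨h1, h2⟩, h3⟩ := hz
    simp only [mem_union, mem_image, mem_filter, mem_product, Prod.mk.injEq, Prod.exists, Prod.swap_prod_mk]
    rcases lt_trichotomy p q with h | h | h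
    · left; right
      exact ⟨⟨h1, h2⟩, h, h3⟩
    · left; left
      exact ⟨p, h1, rfl, h⟩
    · right
      exact ⟨q, p, ⟨⟨h2, h1⟩, h, h3.symm⟩, rfl, rfl⟩
  have h2 := card_le_card h1
  have h3 := h2.trans (card_union_le _ _)
  have h4 := card_union_le (S.image (fun p => (p, p))) ((S ×ˢ S).filter (fun z => z.1 < z.2 ∧ z.1 % a = z.2 % a))
  have h5 : (S.image (fun p => (p, p))).card ≤ S.card := card_image_le
  have h6 : (((S ×ˢ S).filter (fun z => z.1 < z.2 ∧ z.1 % a = z.2 % a)).image Prod.swap).card ≤ pc S a :=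
    card_image_le
  unfold pc at *
  omega

lemma pc_le (S : Finset ℕ) (a x : ℕ) (ha : 1 ≤ a) (hS : S ⊆ PR x) :
    pc S a ≤ ∑ k ∈ Icc 1 (x / a), ((PR x).filter (fun p => p + k * a ∈ PR x)).card := by
  unfold pc
  have h1 : (S ×ˢ S).filter (fun z => z.1 < z.2 ∧ z.1 % a = z.2 % a) ⊆
      (Icc 1 (x / a)).biUnion (fun k => ((PR x).filter (fun p => p + k * a ∈ PR x)).image
        (fun p => (p, p + k * a))) := by
    rintro ⟨p, q⟩ hz
    simp only [mem_filter, mem_product] at hz
    obtain ⟨⟨h1, h2⟩, h3, h4⟩ := hz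
    have hdvd : a ∣ q - p := (Nat.modEq_iff_dvd' h3.le).1 h4
    obtain ⟨k, hk⟩ := hdvd
    have hk' : q = p + k * a := by
      have : q = p + a * k := by omega
      rw [this, mul_comm]
    have hq := mem_PR.1 (hS h2)
    have hk1 : 1 ≤ k := by
      rcases Nat.eq_zero_or_pos k with h | h
      · rw [h] at hk
        omega
      · exact h
    rw [mem_biUnion]
    refine ⟨k, ?_, ?_⟩
    · rw [mem_Icc, Nat.le_div_iff_mul_le ha]
      omega
    · rw [mem_image]
      refine ⟨p, ?_, ?_⟩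
      · rw [mem_filter, ← hk']
        exact ⟨hS h1, hS h2⟩
      · rw [hk']
  refine (card_le_card h1).trans (card_biUnion_le.trans ?_)
  apply sum_le_sum
  intro k _
  exact card_image_le

/-- **the second moment** -/
theorem second (ε : ℝ) (hε : 0 < ε) : ∃ X₀ : ℕ, ∀ x : ℕ, X₀ ≤ x → ∀ a : ℕ, 1 ≤ a → a ≤ x →
    ∀ S : Finset ℕ, S ⊆ PR x →
    ∑ b ∈ range a, ((cls S a b).card : ℝ) ^ 2 ≤
      S.card + (4 + ε) * ((x : ℝ) ^ 2 / (Nat.totient a * Real.log x ^ 2)) := by
  have hC2 := C2_pos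
  -- the parameter
  obtain ⟨t, ht0, ht1, ht2⟩ : ∃ t : ℝ, 0 < t ∧ t < 1 / 2 ∧ (4 + t) * (1 + t) ^ 2 / (1 - t) ^ 2 + 2 * t ≤ 4 + ε := by
    have hc : ContinuousAt (fun t : ℝ => (4 + t) * (1 + t) ^ 2 / (1 - t) ^ 2 + 2 * t) 0 := by
      apply ContinuousAt.add
      · apply ContinuousAt.div
        · fun_prop
        · fun_prop
        · norm_num
      · fun_prop
    have h0 : (fun t : ℝ => (4 + t) * (1 + t) ^ 2 / (1 - t) ^ 2 + 2 * t) 0 < 4 + ε := by
      norm_num
      exact hε
    have h1 := hc.eventually (gt_mem_nhds h0)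
    have h2 : ∀ᶠ t : ℝ in 𝓝 0, t < 1 / 2 := gt_mem_nhds (by norm_num)
    have h4 := ((h1.and h2).filter_mono (nhdsWithin_le_nhds (s := Set.Ioi (0 : ℝ)))).and
      self_mem_nhdsWithin
    obtain ⟨t, ⟨g1, g2⟩, g4⟩ := h4.exists
    exact ⟨t, g4, g2, g1.le⟩
  obtain ⟨N₀, hN₀⟩ := pair_upper t ht0
  have hT := tendsto_natCast_atTop_atTop (R := ℝ)
  have hlT : Tendsto (fun N : ℕ => Real.log (N : ℝ)) atTop atTop := Real.tendsto_log_atTop.comp hT
  have ev1 : ∀ᶠ x : ℕ in atTop, ((N₀ : ℝ) + 3) / t ≤ x := hT.eventually_ge_atTop _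
  have ev2 : ∀ᶠ x : ℕ in atTop, -Real.log (t / 2) / t ≤ Real.log x := hlT.eventually_ge_atTop _
  have ev4 : ∀ᶠ x : ℕ in atTop, Real.log x ^ 2 ≤ t * x := by
    have h1 : ∀ᶠ x : ℝ in atTop, ‖Real.log x ^ (2 : ℝ)‖ ≤ (t : ℝ) * ‖x ^ (1 : ℝ)‖ :=
      (isLittleO_log_rpow_rpow_atTop 2 (by norm_num : (0 : ℝ) < 1)).def (by positivity)
    filter_upwards [hT.eventually h1, eventually_ge_atTop 3] with N h2 h3
    have hN1 : (1 : ℝ) ≤ N := by exact_mod_cast (by omega : 1 ≤ N)
    have hl : 0 ≤ Real.log N := Real.log_nonneg hN1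
    rw [Real.norm_of_nonneg (by positivity), Real.norm_of_nonneg (by positivity)] at h2
    have e : Real.log N ^ (2 : ℝ) = Real.log N ^ 2 := by
      rw [← Real.rpow_natCast]
      norm_num
    rwa [e, Real.rpow_one] at h2
  obtain ⟨X₀, hX₀⟩ := eventually_atTop.1 (((ev1.and ev2).and ev4).and (eventually_ge_atTop 3))
  refine ⟨X₀, fun x hx a ha hax S hS => ?_⟩
  obtain ⟨⟨⟨e1, e2⟩, e4⟩, e5⟩ := hX₀ x hx
  have hxr : (3 : ℝ) ≤ x := by exact_mod_cast e5
  have hx0 : (0 : ℝ) < x := by linarith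
  have hl : 1 ≤ Real.log x := Pool.Agent.H442R2.KF.TaskBV.log_ge_one e5
  have hl0 : 0 < Real.log x := by linarith
  have ha0 : (0 : ℝ) < a := by exact_mod_cast ha
  have hφ0 : (0 : ℝ) < Nat.totient a := by exact_mod_cast Nat.totient_pos.2 (by omega)
  have hφa : (Nat.totient a : ℝ) ≤ a := by exact_mod_cast Nat.totient_le a
  obtain ⟨M, hM⟩ : ∃ M : ℕ, M = ⌊t * x⌋₊ := ⟨_, rfl⟩
  have hM1 : (M : ℝ) ≤ t * x := by
    rw [hM]
    exact Nat.floor_le (by positivity)
  have hM2 : t * x < M + 1 := by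
    rw [hM]
    exact Nat.lt_floor_add_one _
  rw [div_le_iff₀ ht0] at e1
  have hMN : N₀ + 2 ≤ M := by
    have : (N₀ : ℝ) + 2 < M + 1 - 0 := by linarith
    have : ((N₀ + 2 : ℕ) : ℝ) < ((M + 1 : ℕ) : ℝ) := by push_cast; linarith
    have := Nat.cast_lt.1 this
    omega
  have hM3 : t / 2 * x ≤ M := by
    have : (2 : ℝ) ≤ M := by exact_mod_cast (by omega : 2 ≤ M)
    linarith
  have hlogM : (1 - t) * Real.log x ≤ Real.log M := by
    have h1 : Real.log (t / 2 * x) ≤ Real.log M := Real.log_le_log (by positivity) hM3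
    rw [Real.log_mul (by positivity) hx0.ne'] at h1
    rw [div_le_iff₀ ht0] at e2
    linarith
  -- one `k`
  have hk : ∀ k ∈ Icc 1 (x / a), (((PR x).filter (fun p => p + k * a ∈ PR x)).card : ℝ) ≤
      1 + (if 2 ∣ k * a then (4 + t) / ((1 - t) ^ 2 * Real.log x ^ 2) * a *
        (2 * C2 * P (k * a) * ((1 + t) * x / a - k)) else 0) := by
    intro k hk
    rw [mem_Icc, Nat.le_div_iff_mul_le ha] at hk
    obtain ⟨hk1, hk2⟩ := hk
    have hka : (k : ℝ) * a ≤ x := by exact_mod_cast hk2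
    split_ifs with h2
    · have hNk : N₀ ≤ x - k * a + M := by omega
      have h3 := hN₀ (x - k * a + M) hNk (k * a) (by
        have := Nat.mul_pos hk1 ha
        omega) (even_iff_two_dvd.2 h2)
      have h4 : ((PR x).filter (fun p => p + k * a ∈ PR x)).card ≤ tw (k * a) (x - k * a + M) := by
        unfold tw
        apply card_le_card
        intro p hp
        rw [mem_filter, mem_PR, mem_PR] at hp
        rw [mem_filter, mem_PR]
        exact ⟨⟨hp.1.1, by omega⟩, hp.2.1⟩
      have h5 : (((PR x).filter (fun p => p + k * a ∈ PR x)).card : ℝ) ≤ tw (k * a) (x - k * a + M) := by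
        exact_mod_cast h4
      have h6 : ((x - k * a + M : ℕ) : ℝ) ≤ (1 + t) * x - k * a := by
        rw [Nat.cast_add, Nat.cast_sub hk2]
        push_cast
        linarith
      have hlogN : (1 - t) * Real.log x ≤ Real.log ((x - k * a + M : ℕ) : ℝ) := by
        refine hlogM.trans (Real.log_le_log ?_ ?_)
        · have : (2 : ℝ) ≤ M := by exact_mod_cast (by omega : 2 ≤ M)
          linarith
        · exact_mod_cast (by omega : M ≤ x - k * a + M)
      have h7 : 0 ≤ 2 * C2 * P (k * a) := by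
        have := one_le_P (k * a)
        have : 0 ≤ P (k * a) := by linarith
        positivity
      have h8 : ((x - k * a + M : ℕ) : ℝ) / Real.log ((x - k * a + M : ℕ) : ℝ) ^ 2 ≤
          ((1 + t) * x - k * a) / ((1 - t) * Real.log x) ^ 2 := by
        have h9 : 0 < (1 - t) * Real.log x := mul_pos (by linarith) hl0
        apply div_le_div₀ _ h6 (by positivity)
        · exact pow_le_pow_left₀ h9.le hlogN 2
        · nlinarith
      have h9 : (4 + t) * (2 * C2 * P (k * a)) * (((x - k * a + M : ℕ) : ℝ) / Real.log ((x - k * a + M : ℕ) : ℝ) ^ 2)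
          ≤ (4 + t) * (2 * C2 * P (k * a)) * (((1 + t) * x - k * a) / ((1 - t) * Real.log x) ^ 2) :=
        mul_le_mul_of_nonneg_left h8 (by positivity)
      have h10 : (4 + t) * (2 * C2 * P (k * a)) * (((1 + t) * x - k * a) / ((1 - t) * Real.log x) ^ 2) =
          (4 + t) / ((1 - t) ^ 2 * Real.log x ^ 2) * a * (2 * C2 * P (k * a) * ((1 + t) * x / a - k)) := by
        have h11 : (1 - t) ≠ 0 := by
          have : 0 < 1 - t := by linarith
          exact this.ne'
        generalize 1 - t = u at *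
        field_simp
      linarith
    · have h3 : ((PR x).filter (fun p => p + k * a ∈ PR x)).card ≤ 1 := by
        rw [card_le_one]
        have h4 : ∀ p ∈ (PR x).filter (fun p => p + k * a ∈ PR x), p = 2 := by
          intro p hp
          rw [mem_filter, mem_PR, mem_PR] at hp
          obtain ⟨⟨g1, -⟩, g2, -⟩ := hp
          by_contra hne
          have g3 := g1.eq_two_or_odd
          have g4 := g2.eq_two_or_odd
          have g5 := g1.two_le
          have g6 := Nat.mul_pos hk1 ha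
          omega
        intro p hp q hq
        rw [h4 p hp, h4 q hq]
      have h4 : (((PR x).filter (fun p => p + k * a ∈ PR x)).card : ℝ) ≤ 1 := by exact_mod_cast h3
      linarith
  -- the sum
  have hpc : (pc S a : ℝ) ≤ t * ((x : ℝ) ^ 2 / (Nat.totient a * Real.log x ^ 2)) +
      (4 + t) * (1 + t) ^ 2 / (2 * (1 - t) ^ 2) * ((x : ℝ) ^ 2 / (Nat.totient a * Real.log x ^ 2)) := by
    have h1 : (pc S a : ℝ) ≤ ∑ k ∈ Icc 1 (x / a), (((PR x).filter (fun p => p + k * a ∈ PR x)).card : ℝ) := by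
      exact_mod_cast pc_le S a x ha hS
    refine h1.trans ((sum_le_sum hk).trans ?_)
    rw [sum_add_distrib, sum_const, nsmul_eq_mul, mul_one, Nat.card_Icc, ← sum_filter, ← mul_sum]
    apply add_le_add
    · have h2 : ((x / a + 1 - 1 : ℕ) : ℝ) ≤ x / a := by
        rw [Nat.add_sub_cancel]
        exact Nat.cast_div_le
      refine h2.trans ?_
      rw [mul_div_assoc', div_le_div_iff₀ ha0 (by positivity)]
      calc (x : ℝ) * (Nat.totient a * Real.log x ^ 2) ≤ x * (a * (t * x)) := by gcongr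
        _ = t * (x : ℝ) ^ 2 * a := by ring
    · obtain ⟨K, hK⟩ : ∃ K : ℝ, K = (1 + t) * x / a := ⟨_, rfl⟩
      rw [← hK]
      have hK0 : 0 ≤ K := by rw [hK]; positivity
      have h2 : ∑ k ∈ (Icc 1 (x / a)).filter (fun k => 2 ∣ k * a), 2 * C2 * P (k * a) * (K - k) ≤
          ∑ k ∈ (Icc 1 ⌊K⌋₊).filter (fun k => 2 ∣ k * a), 2 * C2 * P (k * a) * (K - k) := by
        apply sum_le_sum_of_subset_of_nonneg
        · apply filter_subset_filter
          apply Icc_subset_Icc_right
          apply Nat.le_floor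
          rw [hK]
          calc ((x / a : ℕ) : ℝ) ≤ x / a := Nat.cast_div_le
            _ ≤ (1 + t) * x / a := by
              apply div_le_div_of_nonneg_right _ ha0.le
              nlinarith
        · intro k hk _
          rw [mem_filter, mem_Icc] at hk
          have h3 := (Nat.le_floor_iff hK0).1 hk.1.2
          have h4 := one_le_P (k * a)
          have h5 : 0 ≤ P (k * a) := by linarith
          have h6 : 0 ≤ K - k := by linarith
          positivity
      have h3 := h2.trans (av a ha K hK0)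
      have h4 : 0 ≤ (4 + t) / ((1 - t) ^ 2 * Real.log x ^ 2) * a := by positivity
      refine (mul_le_mul_of_nonneg_left h3 h4).trans (le_of_eq ?_)
      rw [hK]
      have h11 : (1 - t) ≠ 0 := by
        have : 0 < 1 - t := by linarith
        exact this.ne'
      generalize 1 - t = u at *
      field_simp
  have h1 : ∑ b ∈ range a, ((cls S a b).card : ℝ) ^ 2 ≤ (S.card : ℝ) + 2 * pc S a := by
    have h2 := pairs_le S a
    rw [← sum_sq S a ha] at h2
    exact_mod_cast h2
  have hX0 : 0 ≤ (x : ℝ) ^ 2 / (Nat.totient a * Real.log x ^ 2) := by positivity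
  have h2 := mul_le_mul_of_nonneg_right ht2 hX0
  have h3 : (4 + t) * (1 + t) ^ 2 / (2 * (1 - t) ^ 2) * 2 = (4 + t) * (1 + t) ^ 2 / (1 - t) ^ 2 := by
    have h11 : (1 - t) ≠ 0 := by
      have : 0 < 1 - t := by linarith
      exact this.ne'
    generalize 1 - t = u at *
    field_simp
  rw [← h3] at h2
  linarith

end Pool.Agent.Zk41.CL
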