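import Pool.Agent.Zk41.CL.D

/-!
# Primes in the classes of every modulus (helper41): the number of classes
-/

set_option autoImplicit false

open Finset Filter Topology

namespace Pool.Agent.Zk41.CL

open Pool.Agent.W23.UB (C2 C2_pos)
open Pool.Agent.H442R2.KF (piN)

/-- the primes dividing `a` -/
lemma card_bad (S : Finset ℕ) (a x : ℕ) (ha : 1 ≤ a) (hax : a ≤ x) (hS : S ⊆ PR x) :
    ∑ b ∈ (range a).filter (fun b => ¬ Nat.Coprime b a), (cls S a b).card ≤ Nat.log 2 x := by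
  have h1 : ∑ b ∈ (range a).filter (fun b => ¬ Nat.Coprime b a), (cls S a b).card ≤ a.primeFactors.card := by
    rw [← card_biUnion]
    · apply card_le_card
      intro p hp
      rw [mem_biUnion] at hp
      obtain ⟨b, hb, hp⟩ := hp
      rw [mem_filter, mem_range] at hb
      unfold cls at hp
      rw [mem_filter] at hp
      have hpp := (mem_PR.1 (hS hp.1)).1
      rw [Nat.mem_primeFactors]
      refine ⟨hpp, ?_, by omega⟩
      by_contra hpa
      apply hb.2
      have h2 : Nat.Coprime p a := (Nat.Prime.coprime_iff_not_dvd hpp).2 hpa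
      rw [← hp.2]
      unfold Nat.Coprime at h2 ⊢
      rw [Nat.gcd_comm] at h2
      rw [← Nat.gcd_rec]
      exact h2
    · intro b _ c _ hbc
      simp only [Function.onFun]
      rw [Finset.disjoint_left]
      intro p h1 h2
      unfold cls at h1 h2
      rw [mem_filter] at h1 h2
      exact hbc (h1.2.symm.trans h2.2)
  refine h1.trans ?_
  apply Nat.le_log_of_pow_le (by norm_num)
  refine le_trans ?_ hax
  calc 2 ^ a.primeFactors.card ≤ ∏ p ∈ a.primeFactors, p := by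
        apply Finset.pow_card_le_prod
        intro p hp
        exact (Nat.mem_primeFactors.1 hp).1.two_le
    _ ≤ a := Nat.le_of_dvd ha (Nat.prod_primeFactors_dvd a)

/-- the reduced classes with at least `max 1 v` elements of `S` -/
noncomputable def rich (S : Finset ℕ) (a : ℕ) (v : ℝ) : Finset ℕ :=
  (range a).filter (fun b => Nat.Coprime b a ∧ 1 ≤ (cls S a b).card ∧ v ≤ ((cls S a b).card : ℝ))

lemma cop_card (a : ℕ) : ((range a).filter (fun b => Nat.Coprime b a)).card = Nat.totient a := by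
  rw [Nat.totient_eq_card_coprime]
  congr 1
  apply filter_congr
  intro b _
  exact Nat.coprime_comm

/-- the mass of the rich classes -/
lemma mass (S : Finset ℕ) (a x : ℕ) (ha : 1 ≤ a) (hax : a ≤ x) (hS : S ⊆ PR x) (v : ℝ) (hv : 0 ≤ v) :
    (S.card : ℝ) - Nat.log 2 x - v * Nat.totient a ≤ ∑ b ∈ rich S a v, ((cls S a b).card : ℝ) := by
  classical
  have h1 := cls_card_sum S a ha
  have h2 := card_bad S a x ha hax hS
  have h3 : ∑ b ∈ range a, ((cls S a b).card : ℝ) = S.card := by exact_mod_cast h1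
  have h4 : ∑ b ∈ (range a).filter (fun b => ¬ Nat.Coprime b a), ((cls S a b).card : ℝ) ≤ Nat.log 2 x := by
    exact_mod_cast h2
  rw [← sum_filter_add_sum_filter_not (range a) (fun b => Nat.Coprime b a)] at h3
  obtain ⟨G, hG⟩ : ∃ G, G = (range a).filter (fun b => Nat.Coprime b a) := ⟨_, rfl⟩
  rw [← hG] at h3
  have h5 : rich S a v = G.filter (fun b => 1 ≤ (cls S a b).card ∧ v ≤ ((cls S a b).card : ℝ)) := by
    unfold rich
    rw [hG, filter_filter]
  rw [← sum_filter_add_sum_filter_not G (fun b => 1 ≤ (cls S a b).card ∧ v ≤ ((cls S a b).card : ℝ)), ← h5] at h3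
  have h6 : ∑ b ∈ G.filter (fun b => ¬ (1 ≤ (cls S a b).card ∧ v ≤ ((cls S a b).card : ℝ))), ((cls S a b).card : ℝ) ≤
      v * Nat.totient a := by
    calc _ ≤ ∑ b ∈ G.filter (fun b => ¬ (1 ≤ (cls S a b).card ∧ v ≤ ((cls S a b).card : ℝ))), v := by
          apply sum_le_sum
          intro b hb
          rw [mem_filter] at hb
          by_contra hcon
          rw [not_le] at hcon
          apply hb.2
          constructor
          · have : (0 : ℝ) < (cls S a b).card := lt_of_le_of_lt hv hcon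
            exact_mod_cast this
          · exact hcon.le
      _ = (G.filter (fun b => ¬ (1 ≤ (cls S a b).card ∧ v ≤ ((cls S a b).card : ℝ)))).card * v := by
          rw [sum_const, nsmul_eq_mul]
      _ ≤ Nat.totient a * v := by
          apply mul_le_mul_of_nonneg_right _ hv
          rw [← cop_card a, ← hG]
          exact_mod_cast card_filter_le _ _
      _ = _ := mul_comm _ _
  linarith

lemma alg1 {t : ℝ} (h0 : 0 < t) (h1 : t < 1) : 1 - 5 * t ≤ (1 - t) ^ 4 / (1 + t) := by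
  rw [le_div_iff₀ (by linarith)]
  nlinarith [mul_pos h0 h0, mul_pos (mul_pos h0 h0) h0, mul_pos (mul_pos h0 h0) (mul_pos h0 h0),
    mul_pos (mul_pos h0 h0) (sub_pos.2 h1)]

/-- **the classes of every modulus** -/
theorem classes (ε κ ρ : ℝ) (hε : 0 < ε) (hρ : 0 ≤ ρ) (hρκ : ρ < κ) : ∃ X₀ : ℕ, ∀ x : ℕ, X₀ ≤ x →
    ∀ a : ℕ, 1 ≤ a → a ≤ x → ∀ S : Finset ℕ, S ⊆ PR x → κ * piN x ≤ S.card →
    (1 - ε) * ((κ - ρ) ^ 2 * (piN x / Nat.totient a) / (κ + 4 * (piN x / Nat.totient a))) * Nat.totient a ≤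
      (rich S a (ρ * (piN x / Nat.totient a))).card := by
  classical
  obtain ⟨t, ht⟩ : ∃ t : ℝ, t = min (ε / 5) (1 / 2) := ⟨_, rfl⟩
  have ht0 : 0 < t := by
    rw [ht]
    positivity
  have ht1 : t ≤ 1 / 2 := by
    rw [ht]
    exact min_le_right _ _
  have ht2 : 5 * t ≤ ε := by
    have : t ≤ ε / 5 := by
      rw [ht]
      exact min_le_left _ _
    linarith
  have hκ : 0 < κ := by linarith
  obtain ⟨X₁, hX₁⟩ := second t ht0
  obtain ⟨X₂, hX₂⟩ := pnt t ht0
  have hT := tendsto_natCast_atTop_atTop (R := ℝ)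
  have ev4 : ∀ᶠ x : ℕ in atTop, Real.log x ^ 2 ≤ (min (t * (κ - ρ)) (t * κ)) * Real.log 2 * (1 / 4) * x := by
    have hc : 0 < (min (t * (κ - ρ)) (t * κ)) * Real.log 2 * (1 / 4) := by
      have h1 : 0 < t * (κ - ρ) := mul_pos ht0 (by linarith)
      have h2 : 0 < t * κ := mul_pos ht0 hκ
      have h3 : 0 < Real.log 2 := Real.log_pos (by norm_num)
      have h4 : 0 < min (t * (κ - ρ)) (t * κ) := lt_min h1 h2
      positivity
    have h1 : ∀ᶠ x : ℝ in atTop, ‖Real.log x ^ (2 : ℝ)‖ ≤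
        ((min (t * (κ - ρ)) (t * κ)) * Real.log 2 * (1 / 4)) * ‖x ^ (1 : ℝ)‖ :=
      (isLittleO_log_rpow_rpow_atTop 2 (by norm_num : (0 : ℝ) < 1)).def hc
    filter_upwards [hT.eventually h1, eventually_ge_atTop 3] with N h2 h3
    have hN1 : (1 : ℝ) ≤ N := by exact_mod_cast (by omega : 1 ≤ N)
    have hl : 0 ≤ Real.log N := Real.log_nonneg hN1
    rw [Real.norm_of_nonneg (by positivity), Real.norm_of_nonneg (by positivity)] at h2
    have e : Real.log N ^ (2 : ℝ) = Real.log N ^ 2 := by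
      rw [← Real.rpow_natCast]
      norm_num
    rwa [e, Real.rpow_one] at h2
  obtain ⟨X₃, hX₃⟩ := eventually_atTop.1 ev4
  refine ⟨X₁ + X₂ + X₃ + 3, fun x hx a ha hax S hS hSc => ?_⟩
  have e4 := hX₃ x (by omega)
  obtain ⟨p1, p2⟩ := hX₂ x (by omega)
  have hx3 : 3 ≤ x := by omega
  have hxr : (3 : ℝ) ≤ x := by exact_mod_cast hx3
  have hx0 : (0 : ℝ) < x := by linarith
  have hl : 1 ≤ Real.log x := Pool.Agent.H442R2.KF.TaskBV.log_ge_one hx3
  have hl0 : 0 < Real.log x := by linarith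
  have hφ0 : (0 : ℝ) < Nat.totient a := by exact_mod_cast Nat.totient_pos.2 (by omega)
  obtain ⟨π, hπ⟩ : ∃ π : ℝ, π = piN x := ⟨_, rfl⟩
  rw [← hπ] at p1 p2 hSc ⊢
  obtain ⟨φ, hφ⟩ : ∃ φ : ℝ, φ = Nat.totient a := ⟨_, rfl⟩
  have hxl : 0 < (x : ℝ) / Real.log x := by positivity
  have hπ0 : 0 < π := by
    have : 0 < (1 - t) * (x / Real.log x) := mul_pos (by linarith) hxl
    linarith
  -- `log x` against `π`
  have hl2 : 0 < Real.log 2 := Real.log_pos (by norm_num)
  have hlogx : (Nat.log 2 x : ℝ) + 1 ≤ 2 * (Real.log x / Real.log 2) := by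
    have h1 : (Nat.log 2 x : ℝ) ≤ Real.log x / Real.log 2 := by
      have h2 : (2 : ℝ) ^ Nat.log 2 x ≤ x := by exact_mod_cast Nat.pow_log_le_self 2 (by omega)
      have h3 := Real.log_le_log (by positivity) h2
      rw [Real.log_pow] at h3
      rwa [le_div_iff₀ hl2]
    have h4 : 1 ≤ Real.log x / Real.log 2 := by
      rw [one_le_div hl2]
      exact Real.log_le_log (by norm_num) (by linarith)
    linarith
  have hm : (Nat.log 2 x : ℝ) + 1 ≤ min (t * (κ - ρ)) (t * κ) * π := by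
    have h1 : 2 * (Real.log x / Real.log 2) ≤ min (t * (κ - ρ)) (t * κ) / 2 * (x / Real.log x) := by
      rw [mul_div_assoc', mul_div_assoc', div_le_div_iff₀ hl2 hl0]
      nlinarith
    have h2 : (x : ℝ) / Real.log x ≤ 2 * π := by nlinarith
    have h3 : 0 ≤ min (t * (κ - ρ)) (t * κ) := by
      apply le_min
      · exact mul_nonneg ht0.le (by linarith)
      · positivity
    calc (Nat.log 2 x : ℝ) + 1 ≤ 2 * (Real.log x / Real.log 2) := hlogx
      _ ≤ min (t * (κ - ρ)) (t * κ) / 2 * (x / Real.log x) := h1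
      _ ≤ min (t * (κ - ρ)) (t * κ) / 2 * (2 * π) := mul_le_mul_of_nonneg_left h2 (by linarith)
      _ = _ := by ring
  have hm1 : (Nat.log 2 x : ℝ) ≤ t * (κ - ρ) * π := by
    have := mul_le_mul_of_nonneg_right (min_le_left (t * (κ - ρ)) (t * κ)) hπ0.le
    linarith
  have hm2 : 1 ≤ t * κ * π := by
    have h1 := mul_le_mul_of_nonneg_right (min_le_right (t * (κ - ρ)) (t * κ)) hπ0.le
    have h2 : (0 : ℝ) ≤ Nat.log 2 x := Nat.cast_nonneg _
    linarith
  -- a subset
  obtain ⟨T, hTS, hTc⟩ := exists_subset_card_eq (s := S) (n := ⌈κ * π⌉₊) (Nat.ceil_le.2 hSc)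
  have hT1 : κ * π ≤ T.card := by
    rw [hTc]
    exact Nat.le_ceil _
  have hT2 : (T.card : ℝ) ≤ (1 + t) * (κ * π) := by
    rw [hTc]
    have := Nat.ceil_lt_add_one (by positivity : 0 ≤ κ * π)
    linarith
  have hsub : rich T a (ρ * (π / Nat.totient a)) ⊆ rich S a (ρ * (π / Nat.totient a)) := by
    intro b hb
    unfold rich at hb ⊢
    rw [mem_filter] at hb ⊢
    have h1 : (cls T a b).card ≤ (cls S a b).card := card_le_card (filter_subset_filter _ hTS)
    have h2 : ((cls T a b).card : ℝ) ≤ (cls S a b).card := by exact_mod_cast h1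
    exact ⟨hb.1, hb.2.1, hb.2.2.1.trans h1, hb.2.2.2.trans h2⟩
  have hcard : ((rich T a (ρ * (π / Nat.totient a))).card : ℝ) ≤ (rich S a (ρ * (π / Nat.totient a))).card := by
    exact_mod_cast card_le_card hsub
  refine le_trans ?_ hcard
  have hmass := mass T a x ha hax (hTS.trans hS) (ρ * (π / Nat.totient a)) (by positivity)
  have h2m := hX₁ x (by omega) a ha hax T (hTS.trans hS)
  rw [← hφ] at hφ0 hmass h2m ⊢
  obtain ⟨R, hR⟩ : ∃ R, R = rich T a (ρ * (π / φ)) := ⟨_, rfl⟩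
  rw [← hR] at hmass ⊢
  have hv : ρ * (π / φ) * φ = ρ * π := by field_simp
  rw [hv] at hmass
  have hs : (1 - t) * (κ - ρ) * π ≤ ∑ b ∈ R, ((cls T a b).card : ℝ) := by linarith
  have hs0 : 0 ≤ (1 - t) * (κ - ρ) * π := by
    have h1 : 0 ≤ 1 - t := by linarith
    have h2 : 0 ≤ κ - ρ := by linarith
    positivity
  have hcs : (∑ b ∈ R, ((cls T a b).card : ℝ)) ^ 2 ≤ R.card * ∑ b ∈ R, ((cls T a b).card : ℝ) ^ 2 :=
    sq_sum_le_card_mul_sum_sq
  have hR2 : ∑ b ∈ R, ((cls T a b).card : ℝ) ^ 2 ≤ ∑ b ∈ range a, ((cls T a b).card : ℝ) ^ 2 := by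
    apply sum_le_sum_of_subset_of_nonneg
    · rw [hR]
      exact filter_subset _ _
    · intro b _ _
      positivity
  obtain ⟨D, hD⟩ : ∃ D : ℝ, D = κ * π + 4 * (π ^ 2 / φ) := ⟨_, rfl⟩
  have hD0 : 0 < D := by rw [hD]; positivity
  have h1t : 0 < 1 - t := by linarith
  have hQ : ∑ b ∈ R, ((cls T a b).card : ℝ) ^ 2 ≤ (1 + t) / (1 - t) ^ 2 * D := by
    refine hR2.trans (h2m.trans ?_)
    have h1 : (x : ℝ) ^ 2 / (φ * Real.log x ^ 2) ≤ (π ^ 2 / φ) / (1 - t) ^ 2 := by
      have h2 : (x : ℝ) ^ 2 / (φ * Real.log x ^ 2) = (x / Real.log x) ^ 2 / φ := by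
        field_simp
      have h3 : (x : ℝ) / Real.log x ≤ π / (1 - t) := by
        rw [le_div_iff₀ h1t]
        linarith
      rw [h2]
      calc ((x : ℝ) / Real.log x) ^ 2 / φ ≤ (π / (1 - t)) ^ 2 / φ := by gcongr
        _ = _ := by
          rw [div_pow]
          ring
    have h2 : (4 + t) * ((x : ℝ) ^ 2 / (φ * Real.log x ^ 2)) ≤
        (1 + t) / (1 - t) ^ 2 * (4 * (π ^ 2 / φ)) := by
      calc (4 + t) * ((x : ℝ) ^ 2 / (φ * Real.log x ^ 2)) ≤ (4 + t) * ((π ^ 2 / φ) / (1 - t) ^ 2) :=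
            mul_le_mul_of_nonneg_left h1 (by linarith)
        _ ≤ (4 + 4 * t) * ((π ^ 2 / φ) / (1 - t) ^ 2) :=
            mul_le_mul_of_nonneg_right (by linarith) (by positivity)
        _ = _ := by ring
    have h3 : (T.card : ℝ) ≤ (1 + t) / (1 - t) ^ 2 * (κ * π) := by
      refine hT2.trans (mul_le_mul_of_nonneg_right ?_ (by positivity))
      rw [le_div_iff₀ (by positivity)]
      have h4 : (1 - t) ^ 2 ≤ 1 := by nlinarith
      nlinarith
    rw [hD]
    linarith
  have hmain : ((1 - t) * (κ - ρ) * π) ^ 2 ≤ R.card * ((1 + t) / (1 - t) ^ 2 * D) := by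
    calc ((1 - t) * (κ - ρ) * π) ^ 2 ≤ (∑ b ∈ R, ((cls T a b).card : ℝ)) ^ 2 := pow_le_pow_left₀ hs0 hs 2
      _ ≤ R.card * ∑ b ∈ R, ((cls T a b).card : ℝ) ^ 2 := hcs
      _ ≤ _ := mul_le_mul_of_nonneg_left hQ (Nat.cast_nonneg _)
  have hfin : (1 - t) ^ 4 / (1 + t) * ((κ - ρ) ^ 2 * π ^ 2 / D) ≤ R.card := by
    have h1 : (1 - t) ^ 4 / (1 + t) * ((κ - ρ) ^ 2 * π ^ 2 / D) =
        ((1 - t) * (κ - ρ) * π) ^ 2 / ((1 + t) / (1 - t) ^ 2 * D) := by
      have h2 : (1 - t) ≠ 0 := h1t.ne'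
      have h3 : (1 + t) ≠ 0 := by linarith
      generalize 1 - t = u at *
      field_simp
    rw [h1, div_le_iff₀ (by positivity)]
    exact hmain
  refine le_trans ?_ hfin
  have he : (κ - ρ) ^ 2 * (π / φ) / (κ + 4 * (π / φ)) * φ = (κ - ρ) ^ 2 * π ^ 2 / D := by
    rw [hD]
    field_simp
  rw [mul_assoc, he]
  apply mul_le_mul_of_nonneg_right _ (by positivity)
  have := alg1 ht0 (by linarith : t < 1)
  linarith

end Pool.Agent.Zk41.CL
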