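import Pool.Agent.Zk41.CL.E
import Pool.Agent.H336R2.V.TotLog

/-!
# Primes in the classes of every modulus (helper41): the least primes
-/

set_option autoImplicit false

open Finset Filter Topology

namespace Pool.Agent.Zk41.CL

open Pool.Agent.H442R2.KF (piN)

lemma cst2 (ε l : ℝ) (hε : 0 < ε) (hl : 0 < l) : ∃ t : ℝ, 0 < t ∧ t < 1 / 2 ∧
    l / (1 + 4 * l) - ε ≤ (1 - t) * (((1 - t) ^ 2 * l / (1 + t)) / (1 + 4 * ((1 - t) ^ 2 * l / (1 + t)))) := by
  have hc1 : ContinuousAt (fun t : ℝ => (1 - t) ^ 2 * l / (1 + t)) 0 := by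
    apply ContinuousAt.div
    · fun_prop
    · fun_prop
    · norm_num
  have hc : ContinuousAt (fun t : ℝ => (1 - t) * (((1 - t) ^ 2 * l / (1 + t)) /
      (1 + 4 * ((1 - t) ^ 2 * l / (1 + t))))) 0 := by
    apply ContinuousAt.mul
    · fun_prop
    · apply ContinuousAt.div hc1
      · exact continuousAt_const.add (continuousAt_const.mul hc1)
      · norm_num
        linarith
  have h0 : l / (1 + 4 * l) - ε < (fun t : ℝ => (1 - t) * (((1 - t) ^ 2 * l / (1 + t)) /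
      (1 + 4 * ((1 - t) ^ 2 * l / (1 + t))))) 0 := by
    norm_num
    exact hε
  have h1 := hc.eventually (lt_mem_nhds h0)
  have h2 : ∀ᶠ t : ℝ in 𝓝 0, t < 1 / 2 := gt_mem_nhds (by norm_num)
  have h4 := ((h1.and h2).filter_mono (nhdsWithin_le_nhds (s := Set.Ioi (0 : ℝ)))).and
    self_mem_nhdsWithin
  obtain ⟨t, ⟨g1, g2⟩, g4⟩ := h4.exists
  exact ⟨t, g4, g2, g1.le⟩

lemma mono_frac {u v : ℝ} (hu : 0 ≤ u) (h : u ≤ v) : u / (1 + 4 * u) ≤ v / (1 + 4 * v) := by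
  rw [div_le_div_iff₀ (by linarith) (by linarith)]
  nlinarith

/-- **the least primes in the classes of every modulus** -/
theorem least (ε l : ℝ) (hε : 0 < ε) (hl : 0 < l) : ∃ A : ℕ, ∀ a : ℕ, A ≤ a →
    (l / (1 + 4 * l) - ε) * Nat.totient a ≤
      ((range a).filter (fun b => Nat.Coprime b a ∧ 1 ≤ (cls (PR ⌊l * Nat.totient a * Real.log a⌋₊) a b).card)).card := by
  classical
  obtain ⟨t, ht0, ht1, ht2⟩ := cst2 ε l hε hl
  obtain ⟨X₁, hX₁⟩ := classes t 1 0 ht0 le_rfl one_pos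
  obtain ⟨X₂, hX₂⟩ := pnt t ht0
  obtain ⟨k₀, hk₀⟩ := H336V.totient_log (2 / l)
  have hT := tendsto_natCast_atTop_atTop (R := ℝ)
  have hlT : Tendsto (fun N : ℕ => Real.log (N : ℝ)) atTop atTop := Real.tendsto_log_atTop.comp hT
  have ev1 : ∀ᶠ a : ℕ in atTop, k₀ ≤ (a : ℝ) := hT.eventually_ge_atTop _
  have ev2 : ∀ᶠ a : ℕ in atTop, l * Real.log a ≤ (a : ℝ) ^ t := by
    have h1 : ∀ᶠ x : ℝ in atTop, ‖Real.log x‖ ≤ (1 / l : ℝ) * ‖x ^ t‖ :=
      (isLittleO_log_rpow_atTop ht0).def (by positivity)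
    filter_upwards [hT.eventually h1, eventually_ge_atTop 1] with a h2 h3
    have ha1 : (1 : ℝ) ≤ a := by exact_mod_cast h3
    rw [Real.norm_of_nonneg (Real.log_nonneg ha1), Real.norm_of_nonneg (by positivity)] at h2
    calc l * Real.log a ≤ l * (1 / l * (a : ℝ) ^ t) := mul_le_mul_of_nonneg_left h2 hl.le
      _ = (a : ℝ) ^ t := by field_simp
  have ev3 : ∀ᶠ a : ℕ in atTop, 1 / t ≤ (a : ℝ) := hT.eventually_ge_atTop _
  obtain ⟨A, hA⟩ := eventually_atTop.1 ((ev1.and ev2).and ev3)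
  refine ⟨A + X₁ + X₂ + 3, fun a ha => ?_⟩
  obtain ⟨⟨e1, e2⟩, e3⟩ := hA a (by omega)
  have e1' := hk₀ a e1
  have har : (3 : ℝ) ≤ a := by exact_mod_cast (by omega : 3 ≤ a)
  have ha0 : (0 : ℝ) < a := by linarith
  have hla : 1 ≤ Real.log a := Pool.Agent.H442R2.KF.TaskBV.log_ge_one (by omega)
  have hφ0 : (0 : ℝ) < Nat.totient a := by exact_mod_cast Nat.totient_pos.2 (by omega)
  have hφa : (Nat.totient a : ℝ) ≤ a := by exact_mod_cast Nat.totient_le a
  obtain ⟨φ, hφ⟩ : ∃ φ : ℝ, φ = Nat.totient a := ⟨_, rfl⟩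
  rw [← hφ] at e1' hφ0 hφa ⊢
  obtain ⟨y, hy⟩ : ∃ y : ℝ, y = l * φ * Real.log a := ⟨_, rfl⟩
  rw [← hy]
  have hy1 : 2 * a ≤ y := by
    rw [hy]
    have h1 : 2 / l * a ≤ φ * Real.log a := by
      have h2 : φ / a * Real.log a = φ * Real.log a / a := by ring
      rw [h2, le_div_iff₀ ha0] at e1'
      exact e1'
    calc 2 * (a : ℝ) = l * (2 / l * a) := by field_simp
      _ ≤ l * (φ * Real.log a) := mul_le_mul_of_nonneg_left h1 hl.le
      _ = _ := by ring
  have hy0 : 0 < y := by linarith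
  obtain ⟨x, hx⟩ : ∃ x : ℕ, x = ⌊y⌋₊ := ⟨_, rfl⟩
  rw [← hx]
  have hx1 : (x : ℝ) ≤ y := by
    rw [hx]
    exact Nat.floor_le hy0.le
  have hx2 : y < x + 1 := by
    rw [hx]
    exact Nat.lt_floor_add_one _
  have hax : a ≤ x := by
    have : (a : ℝ) < x + 1 := by linarith
    have : (a : ℝ) < ((x + 1 : ℕ) : ℝ) := by push_cast; linarith
    have := Nat.cast_lt.1 this
    omega
  have hxr : (a : ℝ) ≤ x := by exact_mod_cast hax
  have hx3 : (1 - t) * y ≤ x := by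
    have h1 : 1 ≤ t * y := by
      rw [div_le_iff₀ ht0] at e3
      nlinarith
    linarith
  obtain ⟨p1, -⟩ := hX₂ x (by omega)
  have hlx0 : 0 < Real.log x := Real.log_pos (by linarith)
  have hlx : Real.log x ≤ (1 + t) * Real.log a := by
    have h1 : (x : ℝ) ≤ (a : ℝ) ^ (1 + t) := by
      calc (x : ℝ) ≤ l * φ * Real.log a := hx1.trans hy.le
        _ = φ * (l * Real.log a) := by ring
        _ ≤ a * (a : ℝ) ^ t := by gcongr
        _ = (a : ℝ) ^ (1 + t) := by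
          rw [Real.rpow_add ha0, Real.rpow_one]
    have h2 := Real.log_le_log (by linarith) h1
    rwa [Real.log_rpow ha0] at h2
  obtain ⟨Λ, hΛ⟩ : ∃ Λ : ℝ, Λ = piN x / φ := ⟨_, rfl⟩
  have hΛ0 : (1 - t) ^ 2 * l / (1 + t) ≤ Λ := by
    rw [hΛ, div_le_div_iff₀ (by linarith) hφ0]
    have h1 : (1 - t) * ((1 - t) * y / ((1 + t) * Real.log a)) ≤ piN x := by
      refine le_trans ?_ p1
      apply mul_le_mul_of_nonneg_left _ (by linarith)
      apply div_le_div₀ (by linarith) hx3 hlx0 hlx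
    have h2 : (1 - t) * ((1 - t) * y / ((1 + t) * Real.log a)) = (1 - t) ^ 2 * l * φ / (1 + t) := by
      rw [hy]
      have : (1 + t) ≠ 0 := by linarith
      generalize 1 - t = u at *
      generalize 1 + t = v at *
      field_simp
    rw [h2, div_le_iff₀ (by linarith)] at h1
    exact h1
  have hm0 : 0 ≤ (1 - t) ^ 2 * l / (1 + t) := by
    have : 0 < 1 + t := by linarith
    positivity
  have h := hX₁ x (by omega) a (by omega) hax (PR x) le_rfl (by rw [one_mul, PR_card])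
  rw [← hφ, ← hΛ, sub_zero, one_pow, one_mul, zero_mul] at h
  have h1 : (rich (PR x) a 0).card = ((range a).filter (fun b => Nat.Coprime b a ∧ 1 ≤ (cls (PR x) a b).card)).card := by
    congr 1
    unfold rich
    apply filter_congr
    intro b _
    constructor
    · rintro ⟨h1, h2, -⟩
      exact ⟨h1, h2⟩
    · rintro ⟨h1, h2⟩
      exact ⟨h1, h2, Nat.cast_nonneg _⟩
  rw [h1] at h
  refine le_trans (mul_le_mul_of_nonneg_right ?_ hφ0.le) h
  refine ht2.trans ?_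
  apply mul_le_mul_of_nonneg_left (mono_frac hm0 hΛ0) (by linarith)

end Pool.Agent.Zk41.CL
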