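import Pool.Agent.Zk41.CL.E
import Pool.Agent.Zk41.CL.G

/-!
# Primes in the classes of every modulus (helper41): narrow progressions in a quarter of the classes
-/

set_option autoImplicit false

open Finset Filter Topology

namespace Pool.Agent.Zk41.CL

open Pool.Agent.H442R2.KF (piN)

lemma cst3 (ε κ : ℝ) (hε : 0 < ε) (hκ : 0 < κ) : ∃ t : ℝ, 0 < t ∧ t < 1 / 2 ∧ t < κ ∧
    κ ^ 2 / 4 - ε ≤ (1 - t) * ((κ - t) ^ 2 / (t * κ + 4)) := by
  have hc : ContinuousAt (fun t : ℝ => (1 - t) * ((κ - t) ^ 2 / (t * κ + 4))) 0 := by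
    apply ContinuousAt.mul
    · fun_prop
    · apply ContinuousAt.div
      · fun_prop
      · fun_prop
      · norm_num
  have h0 : κ ^ 2 / 4 - ε < (fun t : ℝ => (1 - t) * ((κ - t) ^ 2 / (t * κ + 4))) 0 := by
    norm_num
    exact hε
  have h1 := hc.eventually (lt_mem_nhds h0)
  have h2 : ∀ᶠ t : ℝ in 𝓝 0, t < 1 / 2 := gt_mem_nhds (by norm_num)
  have h3 : ∀ᶠ t : ℝ in 𝓝 0, t < κ := gt_mem_nhds hκ
  have h4 := ((h1.and (h2.and h3)).filter_mono (nhdsWithin_le_nhds (s := Set.Ioi (0 : ℝ)))).and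
    self_mem_nhdsWithin
  obtain ⟨t, ⟨g1, g2, g3⟩, g4⟩ := h4.exists
  exact ⟨t, g4, g2, g3, g1.le⟩

/-- `x` is at most a power of `⌊x / a⌋` for `a ≤ x ^ (1 - η)` -/
lemma powC (η : ℝ) (hη : 0 < η) : ∃ C x₀ : ℕ, 1 ≤ C ∧ ∀ x : ℕ, x₀ ≤ x → ∀ a : ℕ, 1 ≤ a →
    (a : ℝ) ≤ (x : ℝ) ^ (1 - η) → (x : ℝ) ^ (η / 2) ≤ ((x / a : ℕ) : ℝ) ∧ x ≤ (x / a) ^ C := by
  obtain ⟨C, hC1, hCη⟩ : ∃ C : ℕ, 1 ≤ C ∧ 2 / η ≤ C :=
    ⟨⌈2 / η⌉₊ + 1, by omega, by
      push_cast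
      linarith [Nat.le_ceil (2 / η)]⟩
  have hT := tendsto_natCast_atTop_atTop (R := ℝ)
  obtain ⟨x₀, hx₀⟩ := eventually_atTop.1
    (((tendsto_rpow_atTop (by positivity : 0 < η / 2)).comp hT).eventually_ge_atTop (2 : ℝ))
  refine ⟨C, x₀ + 1, hC1, fun x hx a ha hax => ?_⟩
  have e1 := hx₀ x (by omega)
  simp only [Function.comp] at e1
  have hx1 : (1 : ℝ) ≤ x := by exact_mod_cast (by omega : 1 ≤ x)
  have hx0 : (0 : ℝ) < x := by linarith
  have ha0 : (0 : ℝ) < a := by exact_mod_cast ha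
  have h1 : (x : ℝ) ^ (η / 2) ≤ ((x / a : ℕ) : ℝ) := by
    have h2 : (x : ℝ) ^ η ≤ x / a := by
      rw [le_div_iff₀ ha0]
      calc (x : ℝ) ^ η * a ≤ (x : ℝ) ^ η * (x : ℝ) ^ (1 - η) := by gcongr
        _ = x := by
          rw [← Real.rpow_add hx0]
          rw [show η + (1 - η) = 1 by ring, Real.rpow_one]
    have h3 : (x : ℝ) ^ η = (x : ℝ) ^ (η / 2) * (x : ℝ) ^ (η / 2) := by
      rw [← Real.rpow_add hx0]
      congr 1
      ring
    have h4 : (x : ℝ) / a < ((x / a : ℕ) : ℝ) + 1 := by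
      rw [div_lt_iff₀ ha0]
      have := Nat.lt_div_mul_add (a := x) (b := a) ha
      have h5 : (x : ℝ) < ((x / a * a + a : ℕ) : ℝ) := by exact_mod_cast this
      push_cast at h5
      linarith
    obtain ⟨w, hw⟩ : ∃ w, w = (x : ℝ) ^ (η / 2) := ⟨_, rfl⟩
    rw [← hw] at h3 e1 ⊢
    nlinarith
  refine ⟨h1, ?_⟩
  have h2 : (x : ℝ) ≤ (((x / a : ℕ) : ℝ)) ^ C := by
    calc (x : ℝ) = ((x : ℝ) ^ (η / 2)) ^ (2 / η : ℝ) := by
          rw [← Real.rpow_mul hx0.le]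
          rw [show η / 2 * (2 / η) = 1 by field_simp, Real.rpow_one]
      _ ≤ ((x : ℝ) ^ (η / 2)) ^ (C : ℝ) :=
          Real.rpow_le_rpow_of_exponent_le (by linarith) hCη
      _ = ((x : ℝ) ^ (η / 2)) ^ C := Real.rpow_natCast _ _
      _ ≤ (((x / a : ℕ) : ℝ)) ^ C := pow_le_pow_left₀ (by positivity) h1 C
  exact_mod_cast h2

open Classical in
/-- **narrow progressions in a quarter of the classes of every modulus** -/
theorem narrow (η κ ε : ℝ) (hη : 0 < η) (hκ : 0 < κ) (hε : 0 < ε) (k : ℕ) : ∃ B x₀ : ℕ, ∀ x : ℕ, x₀ ≤ x →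
    ∀ a : ℕ, 1 ≤ a → (a : ℝ) ≤ (x : ℝ) ^ (1 - η) → ∀ S : Finset ℕ, S ⊆ PR x →
    (∀ b < a, Nat.Coprime b a → ε * (piN x / Nat.totient a) ≤ ((cls S a b).card : ℝ) →
      ∃ p d : ℕ, 1 ≤ d ∧ (d : ℝ) ≤ Real.log x ^ B ∧ ∀ i < k, p + i * (a * d) ∈ cls S a b) ∧
    (κ * piN x ≤ S.card → (κ ^ 2 / 4 - ε) * Nat.totient a ≤
      (((range a).filter (fun b => Nat.Coprime b a ∧
        ∃ p d : ℕ, 1 ≤ d ∧ (d : ℝ) ≤ Real.log x ^ B ∧ ∀ i < k, p + i * (a * d) ∈ cls S a b)).card : ℝ)) := by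
  classical
  obtain ⟨t, ht0, ht1, ht2, ht3⟩ := cst3 ε κ hε hκ
  obtain ⟨C, x₁, hC1, hCx⟩ := powC η hη
  obtain ⟨μ, hμ⟩ : ∃ μ : ℝ, μ = min t ε := ⟨_, rfl⟩
  have hμ0 : 0 < μ := by
    rw [hμ]
    exact lt_min ht0 hε
  obtain ⟨B, x₂, hAP⟩ := ap_dense C hC1 k (μ / 2) (by positivity)
  obtain ⟨x₃, hcl⟩ := classes t κ t ht0 ht0.le ht2
  obtain ⟨x₄, hpnt⟩ := pnt (1 / 2) (by norm_num)
  have hT := tendsto_natCast_atTop_atTop (R := ℝ)
  have ev1 : ∀ᶠ x : ℕ in atTop, 2 / t * Real.log x ≤ (x : ℝ) ^ (η / 2) := by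
    have h1 : ∀ᶠ x : ℝ in atTop, ‖Real.log x‖ ≤ (t / 2 : ℝ) * ‖x ^ (η / 2)‖ :=
      (isLittleO_log_rpow_atTop (by positivity : 0 < η / 2)).def (by positivity)
    filter_upwards [hT.eventually h1, eventually_ge_atTop 1] with x h2 h3
    have hx1 : (1 : ℝ) ≤ x := by exact_mod_cast h3
    rw [Real.norm_of_nonneg (Real.log_nonneg hx1), Real.norm_of_nonneg (by positivity)] at h2
    calc 2 / t * Real.log x ≤ 2 / t * (t / 2 * (x : ℝ) ^ (η / 2)) := mul_le_mul_of_nonneg_left h2 (by positivity)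
      _ = (x : ℝ) ^ (η / 2) := by field_simp
  obtain ⟨x₅, hx₅⟩ := eventually_atTop.1 ev1
  refine ⟨B, x₁ + x₂ + x₃ + x₄ + x₅ + 3, fun x hx a ha hax S hS => ?_⟩
  have e1 := hx₅ x (by omega)
  obtain ⟨g1, g2⟩ := hCx x (by omega) a ha hax
  obtain ⟨p1, -⟩ := hpnt x (by omega)
  have hxr : (3 : ℝ) ≤ x := by exact_mod_cast (by omega : 3 ≤ x)
  have hlx : 0 < Real.log x := Real.log_pos (by linarith)
  have hφ0 : (0 : ℝ) < Nat.totient a := by exact_mod_cast Nat.totient_pos.2 (by omega)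
  have hφa : (Nat.totient a : ℝ) ≤ a := by exact_mod_cast Nat.totient_le a
  have ha0 : (0 : ℝ) < a := by exact_mod_cast ha
  have hmain : ∀ b < a, Nat.Coprime b a → μ * (piN x / Nat.totient a) ≤ (cls S a b).card →
      ∃ p d : ℕ, 1 ≤ d ∧ (d : ℝ) ≤ Real.log x ^ B ∧ ∀ i < k, p + i * (a * d) ∈ cls S a b := by
    intro b hb hab hcard
    apply hAP x (by omega) a b ha hb hab g2
    · intro p hp
      unfold cls at hp
      rw [mem_filter] at hp
      have := mem_PR.1 (hS hp.1)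
      exact ⟨this.1, this.2, hp.2⟩
    · refine le_trans ?_ hcard
      have h1 : (x : ℝ) / (Nat.totient a * Real.log x) ≤ 2 * (piN x / Nat.totient a) := by
        have h2 : (x : ℝ) / (Nat.totient a * Real.log x) = (x / Real.log x) / Nat.totient a := by
          rw [div_div, mul_comm]
        rw [h2, mul_div_assoc']
        apply div_le_div_of_nonneg_right _ hφ0.le
        linarith
      calc μ / 2 * (x / (Nat.totient a * Real.log x)) ≤ μ / 2 * (2 * (piN x / Nat.totient a)) :=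
            mul_le_mul_of_nonneg_left h1 (by positivity)
        _ = _ := by ring
  have hΛ0 : 0 ≤ (piN x : ℝ) / Nat.totient a := by positivity
  refine ⟨fun b hb hab hcard => hmain b hb hab (le_trans (mul_le_mul_of_nonneg_right (by
    rw [hμ]
    exact min_le_right _ _) hΛ0) hcard), fun hSc => ?_⟩
  have hax' : a ≤ x := by
    have h1 : 1 ≤ x / a := by
      have h2 : (0 : ℝ) < ((x / a : ℕ) : ℝ) := lt_of_lt_of_le (by positivity) g1
      exact_mod_cast h2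
    rw [Nat.le_div_iff_mul_le ha] at h1
    omega
  have h := hcl x (by omega) a ha hax' S hS hSc
  -- the mean number is large
  have hΛ : 1 / t ≤ (piN x : ℝ) / Nat.totient a := by
    rw [le_div_iff₀ hφ0]
    have h1 : ((x / a : ℕ) : ℝ) * a ≤ x := by exact_mod_cast Nat.div_mul_le_self x a
    have h2 : 2 / t * Real.log x * a ≤ x := by
      calc 2 / t * Real.log x * a ≤ ((x / a : ℕ) : ℝ) * a := mul_le_mul_of_nonneg_right (e1.trans g1) ha0.le
        _ ≤ x := h1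
    have h3 : 2 / t * a ≤ x / Real.log x := by
      rw [le_div_iff₀ hlx]
      linarith
    have h4 : 1 / t * Nat.totient a ≤ 1 / t * a := mul_le_mul_of_nonneg_left hφa (by positivity)
    have h5 : 2 / t * (a : ℝ) = 2 * (1 / t * a) := by ring
    linarith
  obtain ⟨Λ, hΛd⟩ : ∃ Λ : ℝ, Λ = (piN x : ℝ) / Nat.totient a := ⟨_, rfl⟩
  rw [← hΛd] at h hΛ hmain
  have hfrac : 1 / (t * κ + 4) ≤ Λ / (κ + 4 * Λ) := by
    have hΛp : 0 < Λ := lt_of_lt_of_le (by positivity) hΛ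
    rw [div_le_div_iff₀ (by positivity) (by positivity)]
    rw [div_le_iff₀ ht0] at hΛ
    nlinarith
  have hcount : (((rich S a (t * Λ)).card : ℕ) : ℝ) ≤ (((range a).filter (fun b => Nat.Coprime b a ∧
      ∃ p d : ℕ, 1 ≤ d ∧ (d : ℝ) ≤ Real.log x ^ B ∧ ∀ i < k, p + i * (a * d) ∈ cls S a b)).card : ℝ) := by
    rw [Nat.cast_le]
    apply card_le_card
    intro b hb
    unfold rich at hb
    rw [mem_filter, mem_range] at hb
    rw [mem_filter, mem_range]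
    refine ⟨hb.1, hb.2.1, hmain b hb.1 hb.2.1 (le_trans ?_ hb.2.2.2)⟩
    apply mul_le_mul_of_nonneg_right
    · rw [hμ]
      exact min_le_left _ _
    · rw [hΛd]
      exact hΛ0
  refine le_trans ?_ (h.trans hcount)
  apply mul_le_mul_of_nonneg_right _ hφ0.le
  refine ht3.trans ?_
  apply mul_le_mul_of_nonneg_left _ (by linarith)
  calc (κ - t) ^ 2 / (t * κ + 4) = (κ - t) ^ 2 * (1 / (t * κ + 4)) := by ring
    _ ≤ (κ - t) ^ 2 * (Λ / (κ + 4 * Λ)) := mul_le_mul_of_nonneg_left hfrac (by positivity)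
    _ = _ := by ring

end Pool.Agent.Zk41.CL
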